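import Mathlib

/-!
Counting vanishing orders at roots of unity.
-/

open Polynomial

namespace Pool.Agent.H15.NumSem

theorem one_sub_X_pow_ne_zero {R : Type*} [CommRing R] [Nontrivial R] {k : ℕ} (hk : 0 < k) :
    (1 - X ^ k : R[X]) ≠ 0 := by
  intro h
  have := congrArg (fun q => Polynomial.coeff q 0) h
  simp [Polynomial.coeff_X_pow, hk.ne', hk.ne] at this

theorem count_roots_one_sub (ζ : ℂ) {k : ℕ} (hk : 0 < k) :
    (1 - X ^ k : ℂ[X]).roots.count ζ = if ζ ^ k = 1 then 1 else 0 := by
  have h1 : (1 - X ^ k : ℂ[X]) = -(X ^ k - C 1) := by simp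
  rw [h1, Polynomial.roots_neg]
  have hsep : (X ^ k - C (1:ℂ)).Separable := by
    apply Polynomial.separable_X_pow_sub_C
    · exact_mod_cast hk.ne'
    · exact one_ne_zero
  have hle := Polynomial.count_roots_le_one hsep ζ
  have hne : (X ^ k - C (1:ℂ)) ≠ 0 := Polynomial.X_pow_sub_C_ne_zero hk 1
  split_ifs with h
  · have : 0 < (X ^ k - C (1:ℂ)).roots.count ζ := by
      rw [Multiset.count_pos, Polynomial.mem_roots hne]
      simp [h]
    omega
  · rw [Multiset.count_eq_zero, Polynomial.mem_roots hne]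
    intro h2
    apply h
    have h3 : ζ ^ k - 1 = 0 := by simpa using h2
    exact sub_eq_zero.mp h3

variable {ι : Type*} [Fintype ι]

/-- Main identity at the level of polynomials. -/
structure PolyId (n : ι → ℕ) (D : Multiset ℕ) (Q : ℤ[X]) : Prop where
  npos : ∀ i, 0 < n i
  dpos : ∀ j ∈ D, 0 < j
  eval1 : Q.eval 1 = 1
  id : Q * ∏ i, (1 - X ^ (n i)) = (1 - X) * (D.map fun j => (1 - X ^ j : ℤ[X])).prod

theorem count_roots_prod_finset (ζ : ℂ) (n : ι → ℕ) (hn : ∀ i, 0 < n i) :
    (∏ i, (1 - X ^ (n i) : ℂ[X])).roots.count ζ = (Finset.univ.filter fun i => ζ ^ (n i) = 1).card := by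
  rw [Polynomial.roots_prod _ _ (Finset.prod_ne_zero_iff.mpr fun i _ => one_sub_X_pow_ne_zero (hn i))]
  simp only [Finset.card_filter]
  rw [show (Finset.univ.val.bind fun i => (1 - X ^ n i : ℂ[X]).roots) =
    ∑ i, (1 - X ^ n i : ℂ[X]).roots from rfl, Multiset.count_sum']
  exact Finset.sum_congr rfl fun i _ => count_roots_one_sub ζ (hn i)

theorem prod_one_sub_ne_zero {R : Type*} [CommRing R] [IsDomain R] (D : Multiset ℕ)
    (hD : ∀ j ∈ D, 0 < j) : (D.map fun j => (1 - X ^ j : R[X])).prod ≠ 0 := by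
  apply Multiset.prod_ne_zero
  intro h
  rw [Multiset.mem_map] at h
  obtain ⟨j, hj, h0⟩ := h
  exact one_sub_X_pow_ne_zero (hD j hj) h0

theorem count_roots_prod_multiset (ζ : ℂ) (D : Multiset ℕ) (hD : ∀ j ∈ D, 0 < j) :
    (D.map fun j => (1 - X ^ j : ℂ[X])).prod.roots.count ζ = D.countP (fun j => ζ ^ j = 1) := by
  classical
  induction D using Multiset.induction_on with
  | empty => simp
  | cons a D ih =>
    have ha : 0 < a := hD a (Multiset.mem_cons_self a D)
    have hD' : ∀ j ∈ D, 0 < j := fun j hj => hD j (Multiset.mem_cons_of_mem hj)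
    have hne : (D.map fun j => (1 - X ^ j : ℂ[X])).prod ≠ 0 := prod_one_sub_ne_zero D hD'
    rw [Multiset.map_cons, Multiset.prod_cons, Polynomial.roots_mul, Multiset.count_add, ih hD',
      count_roots_one_sub ζ ha, Multiset.countP_cons, add_comm]
    exact mul_ne_zero (one_sub_X_pow_ne_zero ha) hne


theorem PolyId.count_le {n : ι → ℕ} {D : Multiset ℕ} {Q : ℤ[X]} (h : PolyId n D Q) {m : ℕ}
    (hm : 2 ≤ m) : (Finset.univ.filter fun i => m ∣ n i).card ≤ D.countP (fun j => m ∣ j) := by
  classical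
  obtain ⟨ζ, hζ⟩ : ∃ ζ : ℂ, IsPrimitiveRoot ζ m :=
    ⟨_, Complex.isPrimitiveRoot_exp m (by omega)⟩
  have hid := congrArg (Polynomial.map (Int.castRingHom ℂ)) h.id
  simp only [Polynomial.map_mul, Polynomial.map_prod, Polynomial.map_sub, Polynomial.map_one,
    Polynomial.map_pow, Polynomial.map_X, Polynomial.map_multiset_prod, Multiset.map_map,
    Function.comp_def] at hid
  have hQ0 : Q.map (Int.castRingHom ℂ) ≠ 0 := by
    intro h0
    have h1 : (Q.map (Int.castRingHom ℂ)).eval 1 = 1 := by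
      have h2 := Polynomial.eval_intCast_map (Int.castRingHom ℂ) Q 1
      rw [Int.cast_one, Int.cast_one, h.eval1, map_one] at h2
      exact h2
    rw [h0] at h1
    simp at h1
  have hc := congrArg (fun q => Multiset.count ζ (Polynomial.roots q)) hid
  beta_reduce at hc
  rw [Polynomial.roots_mul, Polynomial.roots_mul, Multiset.count_add, Multiset.count_add,
    count_roots_prod_finset ζ n h.npos, count_roots_prod_multiset ζ D h.dpos] at hc
  · have h1 : (1 - X : ℂ[X]).roots.count ζ = 0 := by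
      have := count_roots_one_sub ζ (k := 1) one_pos
      rw [pow_one] at this
      rw [this, if_neg]
      rw [pow_one]
      intro h2
      have := hζ.pow_eq_one_iff_dvd 1
      rw [pow_one] at this
      have h3 := this.mp h2
      have := Nat.le_of_dvd one_pos h3
      omega
    rw [h1, zero_add] at hc
    have h2 : (Finset.univ.filter fun i => ζ ^ (n i) = 1) = Finset.univ.filter fun i => m ∣ n i := by
      ext i; simp [hζ.pow_eq_one_iff_dvd]
    have h3 : D.countP (fun j => ζ ^ j = 1) = D.countP (fun j => m ∣ j) := by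
      apply Multiset.countP_congr rfl
      intro x _
      simp [hζ.pow_eq_one_iff_dvd]
    rw [h2, h3] at hc
    omega
  · apply mul_ne_zero
    · have := one_sub_X_pow_ne_zero (R := ℂ) (k := 1) one_pos
      simpa using this
    · exact prod_one_sub_ne_zero D h.dpos
  · apply mul_ne_zero hQ0
    exact Finset.prod_ne_zero_iff.mpr fun i _ => one_sub_X_pow_ne_zero (h.npos i)

/-- `1 - X ^ k = (1 - X) * geom`. -/
theorem one_sub_eq (k : ℕ) : (1 - X ^ k : ℤ[X]) = (1 - X) * ∑ i ∈ Finset.range k, X ^ i := by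
  rw [mul_comm]
  exact (mul_neg_geom_sum (X : ℤ[X]) k).symm.trans (mul_comm _ _)

theorem PolyId.cancel {n : ι → ℕ} {D : Multiset ℕ} {Q : ℤ[X]} (h : PolyId n D Q) :
    Fintype.card ι = D.card + 1 ∧ ∏ i, n i = D.prod := by
  classical
  have hid := h.id
  have e1 : ∏ i, (1 - X ^ (n i) : ℤ[X]) =
      (1 - X) ^ (Fintype.card ι) * ∏ i, ∑ t ∈ Finset.range (n i), (X : ℤ[X]) ^ t := by
    simp_rw [one_sub_eq]
    rw [Finset.prod_mul_distrib, Finset.prod_const, Finset.card_univ]
  have e2 : (D.map fun j => (1 - X ^ j : ℤ[X])).prod =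
      (1 - X) ^ (D.card) * (D.map fun j => ∑ t ∈ Finset.range j, (X : ℤ[X]) ^ t).prod := by
    simp_rw [one_sub_eq]
    rw [Multiset.prod_map_mul, Multiset.map_const', Multiset.prod_replicate]
  rw [e1, e2] at hid
  set A := ∏ i, ∑ t ∈ Finset.range (n i), (X : ℤ[X]) ^ t with hA
  set B := (D.map fun j => ∑ t ∈ Finset.range j, (X : ℤ[X]) ^ t).prod with hB
  have hA1 : A.eval 1 = ∏ i, (n i : ℤ) := by
    simp [hA, Polynomial.eval_prod, Polynomial.eval_finsetSum]
  have hB1 : B.eval 1 = (D.map fun j : ℕ => (j : ℤ)).prod := by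
    simp [hB, Polynomial.eval_multiset_prod, Polynomial.eval_finsetSum, Multiset.map_map,
      Function.comp_def]
  have hA0 : A.eval 1 ≠ 0 := by
    rw [hA1]
    exact Finset.prod_ne_zero_iff.mpr fun i _ => by exact_mod_cast (h.npos i).ne'
  have hB0 : B.eval 1 ≠ 0 := by
    rw [hB1]
    apply Multiset.prod_ne_zero
    intro h0
    rw [Multiset.mem_map] at h0
    obtain ⟨j, hj, h0⟩ := h0
    have hj2 := h.dpos _ hj
    omega
  have hX : (1 - X : ℤ[X]) ≠ 0 := by
    have := one_sub_X_pow_ne_zero (R := ℤ) (k := 1) one_pos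
    simpa using this
  have hcard : Fintype.card ι = D.card + 1 := by
    rcases lt_trichotomy (Fintype.card ι) (D.card + 1) with hlt | heq | hgt
    · exfalso
      obtain ⟨k, hk⟩ := Nat.exists_eq_add_of_lt hlt
      have h1 : (1 - X : ℤ[X]) ^ (Fintype.card ι) * (Q * A) =
          (1 - X : ℤ[X]) ^ (Fintype.card ι) * ((1 - X) ^ (k + 1) * B) := by
        calc (1 - X : ℤ[X]) ^ (Fintype.card ι) * (Q * A)
            = Q * ((1 - X) ^ (Fintype.card ι) * A) := by ring
          _ = (1 - X) * ((1 - X) ^ (D.card) * B) := hid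
          _ = (1 - X) ^ (D.card + 1) * B := by ring
          _ = (1 - X : ℤ[X]) ^ (Fintype.card ι) * ((1 - X) ^ (k + 1) * B) := by
            rw [hk]; ring
      have h2 := mul_left_cancel₀ (pow_ne_zero _ hX) h1
      have h3 := congrArg (Polynomial.eval 1) h2
      simp [h.eval1] at h3
      exact hA0 h3
    · exact heq
    · exfalso
      obtain ⟨k, hk⟩ := Nat.exists_eq_add_of_lt hgt
      have h1 : (1 - X : ℤ[X]) ^ (D.card + 1) * (Q * ((1 - X) ^ (k + 1) * A)) =
          (1 - X : ℤ[X]) ^ (D.card + 1) * B := by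
        calc (1 - X : ℤ[X]) ^ (D.card + 1) * (Q * ((1 - X) ^ (k + 1) * A))
            = Q * ((1 - X) ^ (Fintype.card ι) * A) := by rw [hk]; ring
          _ = (1 - X) * ((1 - X) ^ (D.card) * B) := hid
          _ = (1 - X) ^ (D.card + 1) * B := by ring
      have h2 := mul_left_cancel₀ (pow_ne_zero _ hX) h1
      have h3 := congrArg (Polynomial.eval 1) h2
      simp at h3
      exact hB0 h3.symm
  refine ⟨hcard, ?_⟩
  have h1 : (1 - X : ℤ[X]) ^ (D.card + 1) * (Q * A) = (1 - X : ℤ[X]) ^ (D.card + 1) * B := by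
    calc (1 - X : ℤ[X]) ^ (D.card + 1) * (Q * A)
        = Q * ((1 - X) ^ (Fintype.card ι) * A) := by rw [hcard]; ring
      _ = (1 - X) * ((1 - X) ^ (D.card) * B) := hid
      _ = (1 - X) ^ (D.card + 1) * B := by ring
  have h2 := mul_left_cancel₀ (pow_ne_zero _ hX) h1
  have h3 := congrArg (Polynomial.eval 1) h2
  rw [Polynomial.eval_mul, h.eval1, one_mul, hA1, hB1] at h3
  have h4 : ((∏ i, n i : ℕ) : ℤ) = ((D.prod : ℕ) : ℤ) := by
    push_cast
    rw [h3]
  exact_mod_cast h4

theorem factorization_multiset_prod (p : ℕ) (D : Multiset ℕ) (hD : ∀ j ∈ D, 0 < j) :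
    D.prod.factorization p = (D.map fun j => j.factorization p).sum := by
  induction D using Multiset.induction_on with
  | empty => simp
  | cons a D ih =>
    have ha : 0 < a := hD a (Multiset.mem_cons_self a D)
    have hD' : ∀ j ∈ D, 0 < j := fun j hj => hD j (Multiset.mem_cons_of_mem hj)
    have hne : D.prod ≠ 0 := Multiset.prod_ne_zero fun h => (hD' 0 h).ne' rfl
    rw [Multiset.prod_cons, Nat.factorization_mul ha.ne' hne, Finsupp.add_apply, ih hD',
      Multiset.map_cons, Multiset.sum_cons]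

theorem sum_map_card_filter (D : Multiset ℕ) (s : Finset ℕ) (p : ℕ) :
    (D.map fun j => (s.filter fun t => p ^ t ∣ j).card).sum =
      ∑ t ∈ s, D.countP (fun j => p ^ t ∣ j) := by
  induction D using Multiset.induction_on with
  | empty => simp
  | cons a D ih =>
    rw [Multiset.map_cons, Multiset.sum_cons, ih, Finset.card_filter, ← Finset.sum_add_distrib]
    apply Finset.sum_congr rfl
    intro t _
    rw [Multiset.countP_cons]
    split_ifs <;> ring

/-- For prime powers the counts agree. -/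
theorem PolyId.prime_pow_eq {n : ι → ℕ} {D : Multiset ℕ} {Q : ℤ[X]} (h : PolyId n D Q) {p : ℕ}
    (hp : p.Prime) {k : ℕ} (hk : 1 ≤ k) :
    (Finset.univ.filter fun i => p ^ k ∣ n i).card = D.countP (fun j => p ^ k ∣ j) := by
  classical
  obtain ⟨-, hprod⟩ := h.cancel
  set b := ∑ i, n i + D.sum + k + 1 with hb
  have hlt : ∀ m, m ≤ ∑ i, n i + D.sum → m < p ^ b := by
    intro m hm
    calc m < 2 ^ m := Nat.lt_two_pow_self
      _ ≤ 2 ^ b := Nat.pow_le_pow_right (by norm_num) (by omega)
      _ ≤ p ^ b := Nat.pow_le_pow_left hp.two_le _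
  have hni : ∀ i, n i ≤ ∑ i, n i + D.sum := fun i =>
    (Finset.single_le_sum (fun _ _ => Nat.zero_le _) (Finset.mem_univ i)).trans (Nat.le_add_right _ _)
  have hdj : ∀ j ∈ D, j ≤ ∑ i, n i + D.sum := fun j hj =>
    (Multiset.single_le_sum (fun _ _ => Nat.zero_le _) j hj).trans (Nat.le_add_left _ _)
  have h1 : (∏ i, n i).factorization p =
      ∑ t ∈ Finset.Ico 1 b, (Finset.univ.filter fun i => p ^ t ∣ n i).card := by
    rw [Nat.factorization_prod_apply (fun i _ => (h.npos i).ne')]
    simp_rw [Finset.card_filter]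
    rw [Finset.sum_comm]
    apply Finset.sum_congr rfl
    intro i _
    rw [Nat.factorization_eq_card_pow_dvd_of_lt hp (h.npos i) (hlt _ (hni i)), Finset.card_filter]
  have h2 : D.prod.factorization p = ∑ t ∈ Finset.Ico 1 b, D.countP (fun j => p ^ t ∣ j) := by
    rw [factorization_multiset_prod p D h.dpos, ← sum_map_card_filter]
    congr 1
    apply Multiset.map_congr rfl
    intro j hj
    rw [Nat.factorization_eq_card_pow_dvd_of_lt hp (h.dpos j hj) (hlt _ (hdj j hj))]
  have hle : ∀ t ∈ Finset.Ico 1 b, (Finset.univ.filter fun i => p ^ t ∣ n i).card ≤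
      D.countP (fun j => p ^ t ∣ j) := by
    intro t ht
    apply h.count_le
    rw [Finset.mem_Ico] at ht
    calc 2 ≤ p := hp.two_le
      _ = p ^ 1 := (pow_one p).symm
      _ ≤ p ^ t := Nat.pow_le_pow_right hp.pos ht.1
  have heq : ∑ t ∈ Finset.Ico 1 b, (Finset.univ.filter fun i => p ^ t ∣ n i).card =
      ∑ t ∈ Finset.Ico 1 b, D.countP (fun j => p ^ t ∣ j) := by
    rw [← h1, ← h2, hprod]
  exact (Finset.sum_eq_sum_iff_of_le hle).mp heq k (Finset.mem_Ico.mpr ⟨hk, by omega⟩)

theorem PolyId.exists_dvd {n : ι → ℕ} {D : Multiset ℕ} {Q : ℤ[X]} (h : PolyId n D Q) {m : ℕ}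
    (hm : 2 ≤ m) {i : ι} (hi : m ∣ n i) : ∃ j ∈ D, m ∣ j := by
  classical
  have h1 := h.count_le hm
  have h2 : 0 < (Finset.univ.filter fun i => m ∣ n i).card :=
    Finset.card_pos.mpr ⟨i, by simp [hi]⟩
  have h3 : 0 < D.countP (fun j => m ∣ j) := lt_of_lt_of_le h2 h1
  rw [Multiset.countP_pos] at h3
  exact h3

theorem countP_two {D : Multiset ℕ} {a b : ℕ} (hab : a ≠ b) (hD : ∀ j ∈ D, j = a ∨ j = b)
    (P : ℕ → Prop) [DecidablePred P] :
    D.countP P = (if P a then D.count a else 0) + (if P b then D.count b else 0) := by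
  induction D using Multiset.induction_on with
  | empty => simp
  | cons c D ih =>
    rw [Multiset.countP_cons, ih fun j hj => hD j (Multiset.mem_cons_of_mem hj),
      Multiset.count_cons, Multiset.count_cons]
    rcases hD c (Multiset.mem_cons_self c D) with rfl | rfl
    · by_cases h1 : P c <;> by_cases h2 : P b <;> simp [h1, h2, Ne.symm hab] <;> omega
    · by_cases h1 : P c <;> by_cases h2 : P a <;> simp [h1, h2, hab] <;> omega

/-- The key coprimality contradiction. -/
theorem PolyId.not_coprime_aux {n : ι → ℕ} {D : Multiset ℕ} {Q : ℤ[X]} (h : PolyId n D Q)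
    {a b : ℕ} (ha : a ∈ D) (hb : b ∈ D) (hab : a ≠ b)
    (hD : ∀ j ∈ D, j = a ∨ j = b) (h1D : 1 ∉ D)
    (hmin : ∀ j ∈ D, ∀ i, n i ≠ j) (hcop : Nat.Coprime a b)
    {i₀ : ι} {p r q : ℕ} (hp : p.Prime) (hr : r.Prime) (hq : q.Prime) (hpa : p ∣ a) (hrb : r ∣ b)
    (hi1 : ¬ p ∣ n i₀) (hi2 : ¬ r ∣ n i₀) (hqi : q ∣ n i₀) (hqa : q ∣ a) : False := by
  classical
  have nodiv : ∀ u v : ℕ, 2 ≤ u → 2 ≤ v → u ∣ a → v ∣ b → ∀ i, u ∣ n i → v ∣ n i → False := by
    intro u v hu hv hua hvb i hui hvi
    have huv : Nat.Coprime u v := Nat.Coprime.coprime_dvd_left hua (Nat.Coprime.coprime_dvd_right hvb hcop)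
    have hdvd : u * v ∣ n i := Nat.Coprime.mul_dvd_of_dvd_of_dvd huv hui hvi
    obtain ⟨j, hj, hjd⟩ := h.exists_dvd (m := u * v) (by nlinarith) hdvd
    rcases hD j hj with rfl | rfl
    · have h1 : v ∣ j := (Dvd.intro_left u rfl).trans hjd
      have h2 := Nat.eq_one_of_dvd_coprimes hcop h1 hvb
      omega
    · have h1 : u ∣ j := (Dvd.intro v rfl).trans hjd
      have h2 := Nat.eq_one_of_dvd_coprimes hcop hua h1
      omega
  have hcard := h.cancel.1
  have hDcard : D.card = D.count a + D.count b := by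
    have := countP_two hab hD (fun _ => True)
    simpa using this
  have cnt_a : ∀ t k : ℕ, t.Prime → 1 ≤ k → t ^ k ∣ a →
      (Finset.univ.filter fun i => t ^ k ∣ n i).card = D.count a := by
    intro t k ht hk htk
    rw [h.prime_pow_eq ht hk, countP_two hab hD, if_pos htk, if_neg, add_zero]
    intro h2
    have h3 := Nat.eq_one_of_dvd_coprimes hcop htk h2
    have := Nat.one_lt_pow (by omega : k ≠ 0) ht.one_lt
    omega
  have cnt_b : ∀ t k : ℕ, t.Prime → 1 ≤ k → t ^ k ∣ b →
      (Finset.univ.filter fun i => t ^ k ∣ n i).card = D.count b := by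
    intro t k ht hk htk
    rw [h.prime_pow_eq ht hk, countP_two hab hD, if_pos htk, if_neg, zero_add]
    intro h2
    have h3 := Nat.eq_one_of_dvd_coprimes hcop h2 htk
    have := Nat.one_lt_pow (by omega : k ≠ 0) ht.one_lt
    omega
  set U := Finset.univ.filter fun i => p ∣ n i with hU
  set V := Finset.univ.filter fun i => r ∣ n i with hV
  have hUc : U.card = D.count a := by
    have := cnt_a p 1 hp le_rfl (by simpa using hpa)
    simpa [hU] using this
  have hVc : V.card = D.count b := by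
    have := cnt_b r 1 hr le_rfl (by simpa using hrb)
    simpa [hV] using this
  -- V is the complement of insert i₀ U
  have hVsub : ∀ t k, t.Prime → 1 ≤ k → t ^ k ∣ b →
      (Finset.univ.filter fun i => t ^ k ∣ n i) = (insert i₀ U)ᶜ := by
    intro t k ht hk htk
    apply Finset.eq_of_subset_of_card_le
    · intro i hi
      rw [Finset.mem_filter] at hi
      rw [Finset.mem_compl, Finset.mem_insert, not_or]
      have htb : t ∣ b := (dvd_pow_self t (by omega)).trans htk
      have hti : t ∣ n i := (dvd_pow_self t (by omega)).trans hi.2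
      refine ⟨?_, ?_⟩
      · rintro rfl
        exact nodiv q t hq.two_le ht.two_le hqa htb i hqi hti
      · intro hiU
        rw [hU, Finset.mem_filter] at hiU
        exact nodiv p t hp.two_le ht.two_le hpa htb i hiU.2 hti
    · rw [Finset.card_compl, Finset.card_insert_of_notMem (by simp [hU, hi1]), hUc, hcard, hDcard,
        cnt_b t k ht hk htk]
      omega
  have hVeq : V = (insert i₀ U)ᶜ := by
    have := hVsub r 1 hr le_rfl (by simpa using hrb)
    simpa [hV] using this
  have hbpos : 0 < D.count b := Multiset.count_pos.mpr hb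
  have hVne : V.Nonempty := by
    rw [← Finset.card_pos, hVc]; exact hbpos
  obtain ⟨i, hiV⟩ := hVne
  have hri : r ∣ n i := by
    rw [hV, Finset.mem_filter] at hiV; exact hiV.2
  apply hmin b hb i
  apply Nat.dvd_antisymm
  · rw [Nat.dvd_iff_prime_pow_dvd_dvd]
    intro t k ht htk
    rcases Nat.eq_zero_or_pos k with rfl | hk
    · simp
    have h2 : 2 ≤ t ^ k := by
      calc 2 ≤ t := ht.two_le
        _ = t ^ 1 := (pow_one t).symm
        _ ≤ t ^ k := Nat.pow_le_pow_right ht.pos hk
    obtain ⟨j, hj, hjd⟩ := h.exists_dvd h2 htk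
    rcases hD j hj with rfl | rfl
    · exfalso
      have h3 : t ∣ j := (dvd_pow_self t (by omega)).trans hjd
      have h4 : t ∣ n i := (dvd_pow_self t (by omega)).trans htk
      exact nodiv t r ht.two_le hr.two_le h3 hrb i h4 hri
    · exact hjd
  · rw [Nat.dvd_iff_prime_pow_dvd_dvd]
    intro t k ht htk
    rcases Nat.eq_zero_or_pos k with rfl | hk
    · simp
    have h5 : i ∈ Finset.univ.filter fun i => t ^ k ∣ n i := by
      rw [hVsub t k ht hk htk, ← hVeq]; exact hiV
    rw [Finset.mem_filter] at h5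
    exact h5.2

/-- Some prime divides every element of `D`. -/
theorem PolyId.exists_prime {n : ι → ℕ} {D : Multiset ℕ} {Q : ℤ[X]} (h : PolyId n D Q)
    (hD0 : D ≠ 0) (hD : ∃ a b, ∀ j ∈ D, j = a ∨ j = b) (h1D : 1 ∉ D)
    (hn1 : ∀ i, n i ≠ 1) (hmin : ∀ j ∈ D, ∀ i, n i ≠ j) :
    ∃ p, p.Prime ∧ ∀ j ∈ D, p ∣ j := by
  classical
  obtain ⟨a, ha⟩ := Multiset.exists_mem_of_ne_zero hD0
  by_cases hall : ∀ j ∈ D, j = a
  · refine ⟨a.minFac, Nat.minFac_prime ?_, fun j hj => ?_⟩
    · rintro rfl; exact h1D ha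
    · rw [hall j hj]; exact Nat.minFac_dvd a
  push_neg at hall
  obtain ⟨b, hb, hba⟩ := hall
  have hD' : ∀ j ∈ D, j = a ∨ j = b := by
    obtain ⟨a', b', hD⟩ := hD
    intro j hj
    rcases hD j hj with rfl | rfl <;> rcases hD a ha with rfl | rfl <;>
      rcases hD b hb with rfl | rfl <;> simp_all
  by_cases hcop : Nat.Coprime a b
  · exfalso
    have ha1 : a ≠ 1 := by rintro rfl; exact h1D ha
    have hb1 : b ≠ 1 := by rintro rfl; exact h1D hb
    set p := a.minFac with hp
    set r := b.minFac with hr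
    have hpp : p.Prime := Nat.minFac_prime ha1
    have hrp : r.Prime := Nat.minFac_prime hb1
    have hpa : p ∣ a := Nat.minFac_dvd a
    have hrb : r ∣ b := Nat.minFac_dvd b
    have hcard := h.cancel.1
    have hDcard : D.card = D.count a + D.count b := by
      have := countP_two (Ne.symm hba) hD' (fun _ => True)
      simpa using this
    have hUc : (Finset.univ.filter fun i => p ∣ n i).card = D.count a := by
      have h1 := h.prime_pow_eq hpp (le_refl 1)
      simp only [pow_one] at h1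
      rw [h1, countP_two (Ne.symm hba) hD', if_pos hpa, if_neg, add_zero]
      intro h2
      exact hpp.one_lt.ne' (Nat.eq_one_of_dvd_coprimes hcop hpa h2)
    have hVc : (Finset.univ.filter fun i => r ∣ n i).card = D.count b := by
      have h1 := h.prime_pow_eq hrp (le_refl 1)
      simp only [pow_one] at h1
      rw [h1, countP_two (Ne.symm hba) hD', if_pos hrb, if_neg, zero_add]
      intro h2
      exact hrp.one_lt.ne' (Nat.eq_one_of_dvd_coprimes hcop h2 hrb)
    have hex : ∃ i₀, ¬ p ∣ n i₀ ∧ ¬ r ∣ n i₀ := by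
      by_contra hcon
      push_neg at hcon
      have hsub : (Finset.univ : Finset ι) ⊆ (Finset.univ.filter fun i => p ∣ n i) ∪
          (Finset.univ.filter fun i => r ∣ n i) := by
        intro i _
        by_cases hpi : p ∣ n i
        · simp [hpi]
        · simp [hcon i hpi]
      have h1 := Finset.card_le_card hsub
      have h2 := Finset.card_union_le (Finset.univ.filter fun i => p ∣ n i)
        (Finset.univ.filter fun i => r ∣ n i)
      rw [Finset.card_univ] at h1
      omega
    obtain ⟨i₀, hi1, hi2⟩ := hex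
    set q := (n i₀).minFac with hq
    have hqp : q.Prime := Nat.minFac_prime (hn1 i₀)
    have hqi : q ∣ n i₀ := Nat.minFac_dvd _
    obtain ⟨j, hj, hqj⟩ := h.exists_dvd hqp.two_le hqi
    rcases hD' j hj with rfl | rfl
    · exact h.not_coprime_aux ha hb (Ne.symm hba) hD' h1D hmin hcop hpp hrp hqp hpa hrb hi1 hi2 hqi hqj
    · exact h.not_coprime_aux hb ha hba (fun j hj => (hD' j hj).symm) h1D hmin hcop.symm hrp hpp hqp
        hrb hpa hi2 hi1 hqi hqj
  · refine ⟨(Nat.gcd a b).minFac, Nat.minFac_prime hcop, fun j hj => ?_⟩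
    have hg := Nat.minFac_dvd (Nat.gcd a b)
    rcases hD' j hj with rfl | rfl
    · exact hg.trans (Nat.gcd_dvd_left _ _)
    · exact hg.trans (Nat.gcd_dvd_right _ _)

/-- Exactly one index is not divisible by `p`. -/
theorem PolyId.exists_index {n : ι → ℕ} {D : Multiset ℕ} {Q : ℤ[X]} (h : PolyId n D Q)
    {p : ℕ} (hp : p.Prime) (hpD : ∀ j ∈ D, p ∣ j) :
    ∃ i₀, ¬ p ∣ n i₀ ∧ ∀ i, i ≠ i₀ → p ∣ n i := by
  classical
  have h1 := h.prime_pow_eq hp (le_refl 1)
  simp only [pow_one] at h1
  have h2 : D.countP (fun j => p ∣ j) = D.card := by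
    rw [Multiset.countP_eq_card]; exact hpD
  have hcard := h.cancel.1
  have h3 : (Finset.univ.filter fun i => ¬ p ∣ n i).card = 1 := by
    have := Finset.card_filter_add_card_filter_not (s := (Finset.univ : Finset ι)) (fun i => p ∣ n i)
    rw [Finset.card_univ] at this
    omega
  rw [Finset.card_eq_one] at h3
  obtain ⟨i₀, hi₀⟩ := h3
  refine ⟨i₀, ?_, fun i hi => ?_⟩
  · have : i₀ ∈ Finset.univ.filter fun i => ¬ p ∣ n i := by rw [hi₀]; simp
    rw [Finset.mem_filter] at this
    exact this.2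
  · by_contra hcon
    have : i ∈ Finset.univ.filter fun i => ¬ p ∣ n i := by simp [hcon]
    rw [hi₀, Finset.mem_singleton] at this
    exact hi this

end Pool.Agent.H15.NumSem
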