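import Mathlib

/-!
Presentations of finitely generated submonoids of the natural numbers, index based.
-/

namespace Pool.Agent.H15.NumSem

variable {ι : Type*}

/-- The factorization map `c ↦ ∑ c i * n i` on finitely supported exponent vectors. -/
noncomputable def fac (n : ι → ℕ) : (ι →₀ ℕ) →+ ℕ :=
  (Finsupp.linearCombination ℕ n).toAddMonoidHom

theorem fac_apply (n : ι → ℕ) (c : ι →₀ ℕ) : fac n c = c.sum fun i k => k * n i := by
  simp [fac, Finsupp.linearCombination_apply]

@[simp] theorem fac_single (n : ι → ℕ) (i : ι) (k : ℕ) : fac n (Finsupp.single i k) = k * n i := by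
  simp [fac]

/-- `ρ` is a presentation of the submonoid generated by the family `n`: the congruence
generated by `ρ` is the kernel congruence of the factorization map. -/
def IsPres (n : ι → ℕ) (ρ : Set ((ι →₀ ℕ) × (ι →₀ ℕ))) : Prop :=
  addConGen (fun x y => (x, y) ∈ ρ) = AddCon.ker (fac n)

/-- The family `n` has a presentation with at most `k` relations. -/
def HasPres (n : ι → ℕ) (k : ℕ) : Prop :=
  ∃ ρ : Finset ((ι →₀ ℕ) × (ι →₀ ℕ)), ρ.card ≤ k ∧ IsPres n (ρ : Set _)

theorem HasPres.mono {n : ι → ℕ} {k l : ℕ} (h : HasPres n k) (hkl : k ≤ l) : HasPres n l := by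
  obtain ⟨ρ, h1, h2⟩ := h
  exact ⟨ρ, h1.trans hkl, h2⟩

/-- Criterion for being a presentation. -/
theorem isPres_iff (n : ι → ℕ) (ρ : Set ((ι →₀ ℕ) × (ι →₀ ℕ))) :
    IsPres n ρ ↔ (∀ x y, (x, y) ∈ ρ → fac n x = fac n y) ∧
      ∀ x y, fac n x = fac n y → addConGen (fun x y => (x, y) ∈ ρ) x y := by
  unfold IsPres
  constructor
  · intro h
    refine ⟨fun x y hxy => ?_, fun x y hxy => ?_⟩
    · have : AddCon.ker (fac n) x y := by
        rw [← h]; exact AddConGen.Rel.of _ _ hxy
      exact this
    · rw [h]; exact hxy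
  · rintro ⟨h1, h2⟩
    apply le_antisymm
    · exact AddCon.addConGen_le.mpr fun x y hxy => h1 x y hxy
    · intro x y hxy
      exact h2 x y hxy

/-- multiply coordinate `i₀` by `p`. -/
noncomputable def dil [DecidableEq ι] (p : ℕ) (i₀ : ι) : (ι →₀ ℕ) →+ (ι →₀ ℕ) where
  toFun c := Finsupp.update c i₀ (p * c i₀)
  map_zero' := by
    ext i
    by_cases h : i = i₀
    · subst h; simp
    · simp [Finsupp.update, h]
  map_add' c d := by
    ext i
    by_cases h : i = i₀
    · subst h; simp [mul_add]
    · simp [h]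

theorem dil_apply_self [DecidableEq ι] (p : ℕ) (i₀ : ι) (c : ι →₀ ℕ) : dil p i₀ c i₀ = p * c i₀ := by
  simp [dil]

theorem dil_apply_ne [DecidableEq ι] (p : ℕ) {i₀ i : ι} (h : i ≠ i₀) (c : ι →₀ ℕ) :
    dil p i₀ c i = c i := by
  simp [dil, h]


/-- Dilation: `n i₀ = n' i₀` and `n i = p * n' i` for `i ≠ i₀`. -/
theorem fac_dil [DecidableEq ι] (p : ℕ) (i₀ : ι) (n n' : ι → ℕ) (h0 : n i₀ = n' i₀)
    (h1 : ∀ i, i ≠ i₀ → n i = p * n' i) (c : ι →₀ ℕ) : fac n (dil p i₀ c) = p * fac n' c := by
  induction c using Finsupp.induction_linear with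
  | zero => simp
  | add f g hf hg => rw [map_add, map_add, hf, hg, map_add, mul_add]
  | single i k =>
    have hd : dil p i₀ (Finsupp.single i k) = Finsupp.single i (if i = i₀ then p * k else k) := by
      ext j
      by_cases hj : j = i₀
      · subst hj
        rw [dil_apply_self]
        by_cases hi : i = j
        · subst hi; simp
        · simp [Finsupp.single_apply, hi]
      · rw [dil_apply_ne p hj]
        by_cases hi : i = i₀
        · subst hi
          simp [Finsupp.single_apply, Ne.symm hj]
        · simp [hi]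
    rw [hd, fac_single, fac_single]
    by_cases hi : i = i₀
    · subst hi; simp [h0, mul_assoc]
    · simp [hi, h1 i hi]; ring

/-- A presentation transfers along dilation. -/
theorem HasPres.dil [DecidableEq ι] {p : ℕ} {i₀ : ι} {n n' : ι → ℕ} {k : ℕ} (hp : 0 < p)
    (h0 : n i₀ = n' i₀) (h1 : ∀ i, i ≠ i₀ → n i = p * n' i) (hcop : Nat.Coprime p (n' i₀))
    (h : HasPres n' k) : HasPres n k := by
  classical
  obtain ⟨ρ, hρ, hP⟩ := h
  rw [isPres_iff] at hP
  obtain ⟨hP1, hP2⟩ := hP
  refine ⟨ρ.image (fun q => (NumSem.dil p i₀ q.1, NumSem.dil p i₀ q.2)), ?_, ?_⟩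
  · exact Finset.card_image_le.trans hρ
  rw [isPres_iff]
  refine ⟨?_, ?_⟩
  · intro x y hxy
    simp only [Finset.coe_image, Set.mem_image, Finset.mem_coe, Prod.mk.injEq, Prod.exists] at hxy
    obtain ⟨a, b, hab, rfl, rfl⟩ := hxy
    rw [fac_dil p i₀ n n' h0 h1, fac_dil p i₀ n n' h0 h1, hP1 a b hab]
  · intro x y hxy
    set C := addConGen (fun x y => (x, y) ∈
      ((ρ.image (fun q => (NumSem.dil p i₀ q.1, NumSem.dil p i₀ q.2)) : Finset _) :
        Set ((ι →₀ ℕ) × (ι →₀ ℕ)))) with hC
    -- pull back
    have key : ∀ a b, fac n' a = fac n' b → C (NumSem.dil p i₀ a) (NumSem.dil p i₀ b) := by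
      intro a b hab
      have h3 := hP2 a b hab
      have h4 : addConGen (fun x y => (x, y) ∈ (ρ : Set ((ι →₀ ℕ) × (ι →₀ ℕ)))) ≤
          C.comap (NumSem.dil p i₀) (map_add _) := by
        rw [AddCon.addConGen_le]
        intro u v huv
        change C (NumSem.dil p i₀ u) (NumSem.dil p i₀ v)
        apply AddConGen.Rel.of
        simp only [Finset.coe_image, Set.mem_image, Finset.mem_coe, Prod.mk.injEq, Prod.exists]
        exact ⟨u, v, huv, rfl, rfl⟩
      exact h4 h3
    -- decompose
    have dec : ∀ z : ι →₀ ℕ, z = Finsupp.single i₀ (z i₀ % p) +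
        NumSem.dil p i₀ (Finsupp.update z i₀ (z i₀ / p)) := by
      intro z
      ext j
      by_cases hj : j = i₀
      · subst hj
        rw [Finsupp.add_apply, dil_apply_self]
        simp [Nat.mod_add_div]
      · rw [Finsupp.add_apply, dil_apply_ne p hj]
        simp [Finsupp.single_apply, hj, Ne.symm hj]
    have fdec : ∀ z : ι →₀ ℕ, fac n z = (z i₀ % p) * n' i₀ +
        p * fac n' (Finsupp.update z i₀ (z i₀ / p)) := by
      intro z
      conv_lhs => rw [dec z]
      rw [map_add, fac_single, fac_dil p i₀ n n' h0 h1, h0]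
    have hmod : x i₀ % p = y i₀ % p := by
      have e1 := fdec x
      have e2 := fdec y
      rw [hxy] at e1
      have e3 : (x i₀ % p) * n' i₀ ≡ (y i₀ % p) * n' i₀ [MOD p] := by
        have : (x i₀ % p) * n' i₀ + p * fac n' (Finsupp.update x i₀ (x i₀ / p)) =
          (y i₀ % p) * n' i₀ + p * fac n' (Finsupp.update y i₀ (y i₀ / p)) := by
          rw [← e1, ← e2]
        have h5 := congrArg (· % p) this
        simpa [Nat.ModEq, Nat.add_mul_mod_self_left] using h5
      have e4 := Nat.ModEq.cancel_right_of_coprime (m := p) (by simpa using hcop) e3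
      have e5 : (x i₀ % p) % p = (y i₀ % p) % p := e4
      simpa using e5
    have hval : fac n' (Finsupp.update x i₀ (x i₀ / p)) = fac n' (Finsupp.update y i₀ (y i₀ / p)) := by
      have e1 := fdec x
      have e2 := fdec y
      rw [hxy, hmod] at e1
      rw [e1] at e2
      have := Nat.add_left_cancel e2
      exact Nat.eq_of_mul_eq_mul_left hp this
    rw [dec x, dec y, hmod]
    exact C.add (C.refl _) (key _ _ hval)

/-- Forget one index. -/
theorem HasPres.adjoin [DecidableEq ι] {i₀ : ι} {n : ι → ℕ} {k : ℕ} {c : ι →₀ ℕ} (hc0 : c i₀ = 0)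
    (hc : fac n c = n i₀) (h : HasPres (fun i : {i // i ≠ i₀} => n i) k) : HasPres n (k + 1) := by
  classical
  obtain ⟨ρ, hρ, hP⟩ := h
  rw [isPres_iff] at hP
  obtain ⟨hP1, hP2⟩ := hP
  let emb : ({i // i ≠ i₀} →₀ ℕ) →+ (ι →₀ ℕ) := Finsupp.mapDomain.addMonoidHom Subtype.val
  have femb : ∀ z, fac n (emb z) = fac (fun i : {i // i ≠ i₀} => n i) z := by
    intro z
    induction z using Finsupp.induction_linear with
    | zero => simp
    | add f g hf hg => rw [map_add, map_add, hf, hg, map_add]
    | single i k => simp [emb]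
  refine ⟨insert (Finsupp.single i₀ 1, c) (ρ.image (fun q => (emb q.1, emb q.2))), ?_, ?_⟩
  · exact (Finset.card_insert_le _ _).trans (Nat.succ_le_succ (Finset.card_image_le.trans hρ))
  rw [isPres_iff]
  refine ⟨?_, ?_⟩
  · intro x y hxy
    simp only [Finset.coe_insert, Finset.coe_image, Set.mem_insert_iff, Prod.mk.injEq,
      Set.mem_image, Finset.mem_coe, Prod.exists] at hxy
    rcases hxy with ⟨rfl, rfl⟩ | ⟨a, b, hab, rfl, rfl⟩
    · simp [hc]
    · rw [femb, femb, hP1 a b hab]
  · intro x y hxy
    set C := addConGen (fun x y => (x, y) ∈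
      ((insert (Finsupp.single i₀ 1, c) (ρ.image (fun q => (emb q.1, emb q.2))) : Finset _) :
        Set ((ι →₀ ℕ) × (ι →₀ ℕ)))) with hC
    have key : ∀ a b, fac (fun i : {i // i ≠ i₀} => n i) a = fac (fun i : {i // i ≠ i₀} => n i) b →
        C (emb a) (emb b) := by
      intro a b hab
      have h3 := hP2 a b hab
      have h4 : addConGen (fun x y => (x, y) ∈
          (ρ : Set (({i // i ≠ i₀} →₀ ℕ) × ({i // i ≠ i₀} →₀ ℕ)))) ≤
          C.comap emb (map_add _) := by
        rw [AddCon.addConGen_le]
        intro u v huv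
        change C (emb u) (emb v)
        apply AddConGen.Rel.of
        simp only [Finset.coe_insert, Finset.coe_image, Set.mem_insert_iff, Prod.mk.injEq,
          Set.mem_image, Finset.mem_coe, Prod.exists]
        exact Or.inr ⟨u, v, huv, rfl, rfl⟩
      exact h4 h3
    have hrel : C (Finsupp.single i₀ 1) c := by
      apply AddConGen.Rel.of
      simp
    have hsmul : ∀ m : ℕ, C (Finsupp.single i₀ m) (m • c) := by
      intro m
      induction m with
      | zero => simpa using C.refl 0
      | succ m ih =>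
        have := C.add ih hrel
        rw [← Finsupp.single_add] at this
        simpa [succ_nsmul] using this
    -- every z is congruent to an element of the image of emb
    have hrest : ∀ z : ι →₀ ℕ, z i₀ = 0 → ∃ w, emb w = z := by
      intro z hz
      refine ⟨z.comapDomain Subtype.val (Subtype.val_injective.injOn), ?_⟩
      simp only [emb, Finsupp.mapDomain.addMonoidHom_apply]
      apply Finsupp.mapDomain_comapDomain
      · exact Subtype.val_injective
      · intro j hj
        simp only [Finset.mem_coe, Finsupp.mem_support_iff] at hj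
        simp only [Subtype.range_coe_subtype, Set.mem_setOf_eq]
        rintro rfl
        exact hj hz
    have hnf : ∀ z : ι →₀ ℕ, ∃ w, C z (emb w) := by
      intro z
      have hz : z = Finsupp.single i₀ (z i₀) + z.erase i₀ := (Finsupp.single_add_erase i₀ z).symm
      obtain ⟨w, hw⟩ := hrest ((z i₀) • c + z.erase i₀) (by simp [hc0])
      refine ⟨w, ?_⟩
      rw [hw]
      conv_lhs => rw [hz]
      exact C.add (hsmul _) (C.refl _)
    obtain ⟨w, hw⟩ := hnf x
    obtain ⟨v, hv⟩ := hnf y
    have hCle : C ≤ AddCon.ker (fac n) := by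
      rw [hC, AddCon.addConGen_le]
      intro u v huv
      simp only [Finset.coe_insert, Finset.coe_image, Set.mem_insert_iff, Prod.mk.injEq,
        Set.mem_image, Finset.mem_coe, Prod.exists] at huv
      rcases huv with ⟨rfl, rfl⟩ | ⟨a, b, hab, rfl, rfl⟩
      · change fac n _ = fac n _
        simp [hc]
      · change fac n _ = fac n _
        rw [femb, femb, hP1 a b hab]
    have e1 : fac n x = fac n (emb w) := hCle hw
    have e2 : fac n y = fac n (emb v) := hCle hv
    have e3 : fac (fun i : {i // i ≠ i₀} => n i) w = fac (fun i : {i // i ≠ i₀} => n i) v := by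
      rw [← femb, ← femb, ← e1, ← e2, hxy]
    exact C.trans hw (C.trans (key w v e3) (C.symm hv))


/-- The rational vector attached to a pair of exponent vectors. -/
def dvec (q : (ι →₀ ℕ) × (ι →₀ ℕ)) : ι → ℚ := fun i => (q.1 i : ℚ) - (q.2 i : ℚ)

/-- Every finite presentation has at least `e - 1` elements. -/
theorem card_le_of_isPres [Fintype ι] (n : ι → ℕ) (hn : ∀ i, 0 < n i)
    (ρ : Set ((ι →₀ ℕ) × (ι →₀ ℕ))) (hfin : ρ.Finite) (h : IsPres n ρ) :
    Fintype.card ι ≤ ρ.ncard + 1 := by
  classical
  rcases isEmpty_or_nonempty ι with hι | hι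
  · simp
  obtain ⟨i₀⟩ := hι
  set W : Submodule ℚ (ι → ℚ) := Submodule.span ℚ (dvec '' ρ) with hW
  -- the congruence defined by W
  let C : AddCon (ι →₀ ℕ) :=
    { r := fun x y => dvec (x, y) ∈ W
      iseqv :=
        { refl := fun x => by
            have : dvec (x, x) = (0 : ι → ℚ) := by ext i; simp [dvec]
            rw [this]; exact W.zero_mem
          symm := fun {x y} hxy => by
            have : dvec (y, x) = - dvec (x, y) := by ext i; simp [dvec]
            rw [this]; exact W.neg_mem hxy
          trans := fun {x y z} hxy hyz => by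
            have : dvec (x, z) = dvec (x, y) + dvec (y, z) := by ext i; simp [dvec]
            rw [this]; exact W.add_mem hxy hyz }
      add' := fun {w x y z} hwx hyz => by
        have : dvec (w + y, x + z) = dvec (w, x) + dvec (y, z) := by
          ext i; simp [dvec]; ring
        change dvec (w + y, x + z) ∈ W
        rw [this]; exact W.add_mem hwx hyz }
  have hC : AddCon.ker (fac n) ≤ C := by
    have h1 : addConGen (fun x y => (x, y) ∈ ρ) = AddCon.ker (fac n) := h
    rw [← h1, AddCon.addConGen_le]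
    intro x y hxy
    change dvec (x, y) ∈ W
    exact Submodule.subset_span ⟨(x, y), hxy, rfl⟩
  have hmem : ∀ i, (Pi.single i (1 : ℚ) : ι → ℚ) ∈
      W ⊔ Submodule.span ℚ {(Pi.single i₀ (1 : ℚ) : ι → ℚ)} := by
    intro i
    have h1 : dvec (Finsupp.single i (n i₀), Finsupp.single i₀ (n i)) ∈ W := by
      apply hC
      change fac n _ = fac n _
      rw [fac_single, fac_single, mul_comm]
    have h0 : (n i₀ : ℚ) ≠ 0 := by exact_mod_cast (hn i₀).ne'
    have h2 : (Pi.single i (1 : ℚ) : ι → ℚ) =
        (n i₀ : ℚ)⁻¹ • dvec (Finsupp.single i (n i₀), Finsupp.single i₀ (n i)) +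
        ((n i : ℚ) / (n i₀ : ℚ)) • (Pi.single i₀ (1 : ℚ) : ι → ℚ) := by
      ext j
      simp only [dvec, Pi.add_apply, Pi.smul_apply, smul_eq_mul, Pi.single_apply,
        Finsupp.single_apply]
      by_cases hji : i = j <;> by_cases hj0 : i₀ = j
      · subst hji; subst hj0; simp; field_simp
      · subst hji; simp [hj0, Ne.symm hj0]; field_simp
      · subst hj0; simp [hji, Ne.symm hji]; field_simp; ring
      · simp [hji, hj0, Ne.symm hji, Ne.symm hj0]
    rw [h2]
    apply Submodule.add_mem
    · exact Submodule.mem_sup_left (W.smul_mem _ h1)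
    · exact Submodule.mem_sup_right (Submodule.smul_mem _ _ (Submodule.mem_span_singleton_self _))
  have htop : W ⊔ Submodule.span ℚ {(Pi.single i₀ (1 : ℚ) : ι → ℚ)} = ⊤ := by
    rw [eq_top_iff]
    intro v _
    rw [pi_eq_sum_univ' v]
    apply Submodule.sum_mem
    intro i _
    apply Submodule.smul_mem
    have := hmem i
    convert this using 1
  have hrank : Module.finrank ℚ (ι → ℚ) ≤ Module.finrank ℚ W + 1 := by
    have h1 := Submodule.finrank_add_le_finrank_add_finrank W
      (Submodule.span ℚ {(Pi.single i₀ (1 : ℚ) : ι → ℚ)})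
    rw [htop, finrank_top] at h1
    have h2 : Module.finrank ℚ (Submodule.span ℚ {(Pi.single i₀ (1 : ℚ) : ι → ℚ)}) ≤ 1 := by
      have := finrank_span_le_card (R := ℚ) ({(Pi.single i₀ (1 : ℚ) : ι → ℚ)} : Set (ι → ℚ))
      simpa using this
    omega
  have hWle : Module.finrank ℚ W ≤ ρ.ncard := by
    have hf2 : (dvec '' ρ).Finite := hfin.image _
    have := hf2.fintype
    have h1 := finrank_span_le_card (R := ℚ) (dvec '' ρ)
    refine h1.trans ?_
    rw [← Set.ncard_eq_toFinset_card']
    exact Set.ncard_image_le hfin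
  rw [Module.finrank_fintype_fun_eq_card] at hrank
  omega

end Pool.Agent.H15.NumSem
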