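import Mathlib
import Pool.Agent.H15.NumSemPres
import Pool.Agent.H15.NumSemCount

/-!
Hilbert series identities for numerical semigroups.
-/

open PowerSeries

namespace Pool.Agent.H15.NumSem

open Classical in
/-- The Hilbert series `∑_{m ∈ T} X^m`. -/
noncomputable def hser (T : Set ℕ) : ℤ⟦X⟧ := PowerSeries.mk fun m => if m ∈ T then 1 else 0

open Classical in
theorem coeff_hser (T : Set ℕ) (m : ℕ) : coeff m (hser T) = if m ∈ T then 1 else 0 := by
  simp [hser]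

/-- Series supported on `T`. -/
def SuppIn (T : Set ℕ) (f : ℤ⟦X⟧) : Prop := ∀ m, m ∉ T → coeff m f = 0

theorem SuppIn.mul {T : AddSubmonoid ℕ} {f g : ℤ⟦X⟧} (hf : SuppIn T f) (hg : SuppIn T g) :
    SuppIn T (f * g) := by
  intro m hm
  rw [coeff_mul]
  apply Finset.sum_eq_zero
  intro q hq
  rw [Finset.HasAntidiagonal.mem_antidiagonal] at hq
  by_cases h1 : q.1 ∈ (T : Set ℕ)
  · by_cases h2 : q.2 ∈ (T : Set ℕ)
    · exact absurd (hq ▸ T.add_mem h1 h2) hm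
    · rw [hg _ h2, mul_zero]
  · rw [hf _ h1, zero_mul]

theorem SuppIn.one {T : AddSubmonoid ℕ} : SuppIn T (1 : ℤ⟦X⟧) := by
  intro m hm
  rw [coeff_one, if_neg]
  rintro rfl
  exact hm T.zero_mem

theorem suppIn_one_sub {T : AddSubmonoid ℕ} {j : ℕ} (hj : j ∈ T) : SuppIn T (1 - X ^ j : ℤ⟦X⟧) := by
  intro m hm
  rw [map_sub, SuppIn.one m hm, coeff_X_pow, if_neg, sub_zero]
  rintro rfl
  exact hm hj

theorem suppIn_hser {T : Set ℕ} : SuppIn T (hser T) := by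
  intro m hm
  rw [coeff_hser, if_neg hm]

/-- At an atom, the coefficient behaves like a derivation. -/
theorem coeff_mul_atom {T : AddSubmonoid ℕ} {f g : ℤ⟦X⟧} (hf : SuppIn T f) (hg : SuppIn T g)
    {a : ℕ} (ha0 : a ≠ 0) (ha : ∀ u ∈ T, ∀ v ∈ T, u + v = a → u = 0 ∨ v = 0) :
    coeff a (f * g) = coeff 0 f * coeff a g + coeff a f * coeff 0 g := by
  rw [coeff_mul]
  have hsub : ({(0, a), (a, 0)} : Finset (ℕ × ℕ)) ⊆ Finset.HasAntidiagonal.antidiagonal a := by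
    intro q hq
    simp only [Finset.mem_insert, Finset.mem_singleton] at hq
    rcases hq with rfl | rfl <;> simp
  rw [← Finset.sum_subset hsub, Finset.sum_pair]
  · simp [ha0.symm]
  · intro q hq hnq
    rw [Finset.HasAntidiagonal.mem_antidiagonal] at hq
    by_cases h1 : q.1 ∈ (T : Set ℕ)
    · by_cases h2 : q.2 ∈ (T : Set ℕ)
      · exfalso
        rcases ha q.1 h1 q.2 h2 hq with h3 | h3
        · apply hnq
          have : q = (0, a) := by ext <;> simp_all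
          simp [this]
        · apply hnq
          have : q = (a, 0) := by ext <;> simp_all
          simp [this]
      · rw [hg _ h2, mul_zero]
    · rw [hf _ h1, zero_mul]

/-- multiset product version. -/
theorem atom_multiset {T : AddSubmonoid ℕ} {a : ℕ} (ha0 : a ≠ 0)
    (ha : ∀ u ∈ T, ∀ v ∈ T, u + v = a → u = 0 ∨ v = 0) (D : Multiset ℕ) (hD : ∀ j ∈ D, j ∈ T)
    (hD0 : 0 ∉ D) :
    SuppIn T (D.map fun j => (1 - X ^ j : ℤ⟦X⟧)).prod ∧
    coeff 0 (D.map fun j => (1 - X ^ j : ℤ⟦X⟧)).prod = 1 ∧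
    coeff a (D.map fun j => (1 - X ^ j : ℤ⟦X⟧)).prod = - (D.count a : ℤ) := by
  induction D using Multiset.induction_on with
  | empty => 
    refine ⟨SuppIn.one, by simp, ?_⟩
    simp [coeff_one, ha0]
  | cons c D ih =>
    have hc : c ∈ T := hD c (Multiset.mem_cons_self c D)
    have hc0 : c ≠ 0 := fun h => hD0 (h ▸ Multiset.mem_cons_self c D)
    obtain ⟨h1, h2, h3⟩ := ih (fun j hj => hD j (Multiset.mem_cons_of_mem hj))
      (fun h => hD0 (Multiset.mem_cons_of_mem h))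
    rw [Multiset.map_cons, Multiset.prod_cons]
    refine ⟨(suppIn_one_sub hc).mul h1, ?_, ?_⟩
    · rw [coeff_zero_eq_constantCoeff_apply, map_mul, ← coeff_zero_eq_constantCoeff_apply,
        ← coeff_zero_eq_constantCoeff_apply, h2]
      simp [hc0]
    · rw [coeff_mul_atom (suppIn_one_sub hc) h1 ha0 ha, h2, h3]
      simp only [map_sub, coeff_one, coeff_X_pow, Multiset.count_cons]
      simp only [ha0, if_false]
      rw [if_neg hc0.symm]
      split_ifs <;> simp <;> ring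

/-- The submonoid generated by the family `n`. -/
noncomputable def gen {ι : Type*} (n : ι → ℕ) : AddSubmonoid ℕ := AddMonoidHom.mrange (fac n)

theorem mem_gen {ι : Type*} {n : ι → ℕ} {m : ℕ} : m ∈ gen n ↔ ∃ c, fac n c = m := by
  simp [gen]

theorem mem_gen_self {ι : Type*} (n : ι → ℕ) (i : ι) : n i ∈ gen n :=
  mem_gen.mpr ⟨Finsupp.single i 1, by simp⟩

/-- Polynomial form of `(1 - X) * hser T` when `T` is cofinite. -/
theorem exists_poly (T : AddSubmonoid ℕ) (hT : ((T : Set ℕ)ᶜ).Finite) :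
    ∃ Q : Polynomial ℤ, Q.eval 1 = 1 ∧ (Q : ℤ⟦X⟧) = (1 - X) * hser T := by
  classical
  set G : Polynomial ℤ := ∑ g ∈ hT.toFinset, Polynomial.X ^ g with hG
  refine ⟨1 - (1 - Polynomial.X) * G, by simp, ?_⟩
  have h1 : (G : ℤ⟦X⟧) + hser T = PowerSeries.mk 1 := by
    ext m
    rw [map_add, Polynomial.coeff_coe, coeff_hser, hG, Polynomial.finsetSum_coeff]
    simp only [Polynomial.coeff_X_pow, coeff_mk, Pi.one_apply]
    by_cases hm : m ∈ (T : Set ℕ)
    · rw [if_pos hm, Finset.sum_eq_zero]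
      · simp
      · intro g hg
        rw [if_neg]
        rintro rfl
        rw [Set.Finite.mem_toFinset] at hg
        exact hg hm
    · rw [if_neg hm]
      have hm2 : m ∈ hT.toFinset := by rw [Set.Finite.mem_toFinset]; exact hm
      simp [hm]
  have h2 : (1 - X : ℤ⟦X⟧) * PowerSeries.mk 1 = 1 := by
    rw [mul_comm]; exact PowerSeries.mk_one_mul_one_sub_eq_one ℤ
  have h3 : hser T = PowerSeries.mk 1 - (G : ℤ⟦X⟧) := by rw [← h1]; ring
  rw [h3, mul_sub, h2]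
  push_cast
  ring

/-- The identity `hser T * ∏ (1 - X^{n i}) = ∏_{j ∈ D} (1 - X^j)`. -/
def SerId {ι : Type*} [Fintype ι] (n : ι → ℕ) (D : Multiset ℕ) : Prop :=
  hser (gen n) * ∏ i, (1 - X ^ (n i) : ℤ⟦X⟧) = (D.map fun j => (1 - X ^ j : ℤ⟦X⟧)).prod

theorem SerId.toPolyId {ι : Type*} [Fintype ι] {n : ι → ℕ} {D : Multiset ℕ} (h : SerId n D)
    (hn : ∀ i, 0 < n i) (hD : ∀ j ∈ D, 0 < j) (hT : ((gen n : Set ℕ)ᶜ).Finite) :
    ∃ Q, PolyId n D Q := by
  obtain ⟨Q, hQ1, hQ⟩ := exists_poly (gen n) hT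
  refine ⟨Q, ⟨hn, hD, hQ1, ?_⟩⟩
  apply Polynomial.coe_injective
  have e1 : ((∏ i, (1 - Polynomial.X ^ (n i)) : Polynomial ℤ) : ℤ⟦X⟧) =
      ∏ i, (1 - X ^ (n i) : ℤ⟦X⟧) := by
    rw [← Polynomial.coeToPowerSeries.ringHom_apply, map_prod]
    simp
  have e2 : (((D.map fun j => (1 - Polynomial.X ^ j : Polynomial ℤ)).prod : Polynomial ℤ) : ℤ⟦X⟧) =
      (D.map fun j => (1 - X ^ j : ℤ⟦X⟧)).prod := by
    rw [← Polynomial.coeToPowerSeries.ringHom_apply, map_multiset_prod]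
    simp [Multiset.map_map, Function.comp_def]
  rw [Polynomial.coe_mul, Polynomial.coe_mul, e1, e2, hQ, mul_assoc, h]
  simp

theorem fac_eq_add_erase {ι : Type*} (n : ι → ℕ) (i₀ : ι) (c : ι →₀ ℕ) :
    fac n c = c i₀ * n i₀ + fac n (c.erase i₀) := by
  conv_lhs => rw [← Finsupp.single_add_erase i₀ c]
  rw [map_add, fac_single]

theorem fac_eq_erase {ι : Type*} [DecidableEq ι] {p : ℕ} {i₀ : ι} {n n' : ι → ℕ}
    (h0 : n i₀ = n' i₀) (h1 : ∀ i, i ≠ i₀ → n i = p * n' i) (c : ι →₀ ℕ) :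
    fac n c = c i₀ * n' i₀ + p * fac n' (c.erase i₀) := by
  rw [fac_eq_add_erase n i₀ c, h0]
  congr 1
  rw [← fac_dil p i₀ n n' h0 h1]
  congr 1
  ext j
  by_cases hj : j = i₀
  · subst hj; rw [dil_apply_self]; simp
  · rw [dil_apply_ne p hj]

open Classical in
theorem coeff_hser_mul (T : AddSubmonoid ℕ) {a : ℕ} (ha : a ∈ T) (m : ℕ) :
    coeff m (hser T * (1 - X ^ a)) = if (m ∈ T ∧ ¬ (a ≤ m ∧ m - a ∈ T)) then 1 else 0 := by
  rw [mul_sub, mul_one, map_sub, coeff_mul_X_pow', coeff_hser]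
  by_cases h1 : a ≤ m
  · rw [if_pos h1, coeff_hser]
    by_cases h2 : m - a ∈ T
    · have h3 : m ∈ T := by
        have := T.add_mem h2 ha
        rwa [Nat.sub_add_cancel h1] at this
      simp [h1, h2, h3]
    · by_cases h3 : m ∈ T <;> simp [h2, h3]
  · rw [if_neg h1]
    by_cases h3 : m ∈ T <;> simp [h1, h3]

/-- The Apéry set identity. -/
theorem apery_dil {ι : Type*} [DecidableEq ι] {p : ℕ} (hp0 : p ≠ 0) {i₀ : ι} {n n' : ι → ℕ}
    (h0 : n i₀ = n' i₀) (h1 : ∀ i, i ≠ i₀ → n i = p * n' i) (hcop : Nat.Coprime p (n' i₀)) (m : ℕ) :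
    (m ∈ gen n ∧ ¬ (n i₀ ≤ m ∧ m - n i₀ ∈ gen n)) ↔
      p ∣ m ∧ (m / p ∈ gen n' ∧ ¬ (n' i₀ ≤ m / p ∧ m / p - n' i₀ ∈ gen n')) := by
  constructor
  · rintro ⟨hm, hnm⟩
    obtain ⟨c, rfl⟩ := mem_gen.mp hm
    have hc0 : c i₀ = 0 := by
      by_contra hc
      obtain ⟨k, hk⟩ := Nat.exists_eq_succ_of_ne_zero hc
      apply hnm
      have h2 : c = Finsupp.single i₀ 1 + (Finsupp.single i₀ k + c.erase i₀) := by
        rw [← add_assoc, ← Finsupp.single_add, add_comm 1 k, ← Nat.succ_eq_add_one, ← hk,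
          Finsupp.single_add_erase]
      have h3 : fac n c = n i₀ + fac n (Finsupp.single i₀ k + c.erase i₀) := by
        conv_lhs => rw [h2]
        rw [map_add, fac_single, one_mul]
      refine ⟨by omega, ?_⟩
      rw [h3, Nat.add_sub_cancel_left]
      exact mem_gen.mpr ⟨_, rfl⟩
    have h2 : fac n c = p * fac n' (c.erase i₀) := by
      rw [fac_eq_erase h0 h1, hc0]; simp
    refine ⟨⟨_, h2⟩, ?_⟩
    rw [h2, Nat.mul_div_cancel_left _ (Nat.pos_of_ne_zero hp0)]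
    refine ⟨mem_gen.mpr ⟨_, rfl⟩, ?_⟩
    rintro ⟨h3, h4⟩
    obtain ⟨d, hd⟩ := mem_gen.mp h4
    apply hnm
    have h5 : fac n' (c.erase i₀) = n' i₀ + fac n' d := by omega
    obtain ⟨q, rfl⟩ := Nat.exists_eq_succ_of_ne_zero hp0
    have h6 : fac n c = n i₀ + fac n (Finsupp.single i₀ q + dil (q + 1) i₀ d) := by
      rw [h2, h5, map_add, fac_single, fac_dil (q + 1) i₀ n n' h0 h1, h0]
      simp only [Nat.succ_eq_add_one]
      ring
    refine ⟨by omega, ?_⟩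
    rw [h6, Nat.add_sub_cancel_left]
    exact mem_gen.mpr ⟨_, rfl⟩
  · rintro ⟨⟨s, rfl⟩, hs, hns⟩
    rw [Nat.mul_div_cancel_left _ (Nat.pos_of_ne_zero hp0)] at hs hns
    obtain ⟨c, rfl⟩ := mem_gen.mp hs
    refine ⟨mem_gen.mpr ⟨dil p i₀ c, fac_dil p i₀ n n' h0 h1 c⟩, ?_⟩
    rintro ⟨h3, h4⟩
    obtain ⟨d, hd⟩ := mem_gen.mp h4
    have h5 : p * fac n' c = n i₀ + fac n d := by omega
    rw [fac_eq_erase h0 h1 d, h0] at h5
    have h6 : p ∣ (d i₀ + 1) * n' i₀ := by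
      have h7 : p * fac n' c = (d i₀ + 1) * n' i₀ + p * fac n' (d.erase i₀) := by
        rw [h5]; ring
      have h8 : p ∣ (d i₀ + 1) * n' i₀ + p * fac n' (d.erase i₀) := by
        rw [← h7]; exact dvd_mul_right _ _
      exact (Nat.dvd_add_left (dvd_mul_right _ _)).mp h8
    have h7 : p ∣ d i₀ + 1 := hcop.dvd_of_dvd_mul_right h6
    obtain ⟨k, hk⟩ := h7
    have hk0 : k ≠ 0 := by rintro rfl; omega
    obtain ⟨l, rfl⟩ := Nat.exists_eq_succ_of_ne_zero hk0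
    have h8 : fac n' c = n' i₀ + fac n' (Finsupp.single i₀ l + d.erase i₀) := by
      apply Nat.eq_of_mul_eq_mul_left (Nat.pos_of_ne_zero hp0)
      rw [h5, map_add, fac_single]
      have : n' i₀ + d i₀ * n' i₀ = p * (l + 1) * n' i₀ := by
        rw [← Nat.succ_eq_add_one, ← hk]; ring
      nlinarith [this]
    apply hns
    refine ⟨by omega, ?_⟩
    rw [h8, Nat.add_sub_cancel_left]
    exact mem_gen.mpr ⟨_, rfl⟩

/-- Series version of the Apéry set identity. -/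
theorem hser_dil {ι : Type*} [DecidableEq ι] {p : ℕ} (hp0 : p ≠ 0) {i₀ : ι} {n n' : ι → ℕ}
    (h0 : n i₀ = n' i₀) (h1 : ∀ i, i ≠ i₀ → n i = p * n' i) (hcop : Nat.Coprime p (n' i₀)) :
    hser (gen n) * (1 - X ^ (n i₀)) =
      PowerSeries.expand p hp0 (hser (gen n') * (1 - X ^ (n' i₀))) := by
  classical
  ext m
  rw [coeff_hser_mul _ (mem_gen_self n i₀), PowerSeries.coeff_expand,
    coeff_hser_mul _ (mem_gen_self n' i₀)]
  have h2 := apery_dil hp0 h0 h1 hcop m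
  by_cases h3 : p ∣ m
  · rw [if_pos h3]
    by_cases h4 : (m / p ∈ gen n' ∧ ¬ (n' i₀ ≤ m / p ∧ m / p - n' i₀ ∈ gen n'))
    · rw [if_pos h4, if_pos (h2.mpr ⟨h3, h4⟩)]
    · rw [if_neg h4, if_neg (fun h => h4 (h2.mp h).2)]
  · rw [if_neg h3, if_neg (fun h => h3 (h2.mp h).1)]

theorem expand_injective {p : ℕ} (hp0 : p ≠ 0) :
    Function.Injective (PowerSeries.expand (R := ℤ) p hp0) := by
  intro f g h
  ext m
  have := congrArg (fun q => coeff (p * m) q) h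
  simpa using this

theorem SerId.div {ι : Type*} [Fintype ι] [DecidableEq ι] {n n' : ι → ℕ} {D : Multiset ℕ}
    (h : SerId n D) {p : ℕ} (hp0 : p ≠ 0) {i₀ : ι} (h0 : n i₀ = n' i₀)
    (h1 : ∀ i, i ≠ i₀ → n i = p * n' i) (hcop : Nat.Coprime p (n' i₀)) (hD : ∀ j ∈ D, p ∣ j) :
    SerId n' (D.map (· / p)) := by
  unfold SerId at *
  apply expand_injective hp0
  have e1 : ∏ i, (1 - X ^ (n i) : ℤ⟦X⟧) =
      (1 - X ^ (n i₀)) * ∏ i ∈ Finset.univ.erase i₀, (1 - X ^ (n i)) :=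
    (Finset.mul_prod_erase _ _ (Finset.mem_univ i₀)).symm
  have e2 : ∏ i, (1 - X ^ (n' i) : ℤ⟦X⟧) =
      (1 - X ^ (n' i₀)) * ∏ i ∈ Finset.univ.erase i₀, (1 - X ^ (n' i)) :=
    (Finset.mul_prod_erase _ _ (Finset.mem_univ i₀)).symm
  rw [e1, ← mul_assoc, hser_dil hp0 h0 h1 hcop] at h
  rw [e2, ← mul_assoc, map_mul, map_prod]
  have e3 : ∏ i ∈ Finset.univ.erase i₀, (PowerSeries.expand p hp0) (1 - X ^ n' i : ℤ⟦X⟧) =
      ∏ i ∈ Finset.univ.erase i₀, (1 - X ^ (n i) : ℤ⟦X⟧) := by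
    apply Finset.prod_congr rfl
    intro i hi
    rw [map_sub, map_one, map_pow, PowerSeries.expand_X, ← pow_mul, h1 i (Finset.ne_of_mem_erase hi)]
  rw [e3, h, map_multiset_prod, Multiset.map_map, Multiset.map_map]
  congr 1
  apply Multiset.map_congr rfl
  intro j hj
  simp only [Function.comp_def]
  rw [map_sub, map_one, map_pow, PowerSeries.expand_X, ← pow_mul, Nat.mul_div_cancel' (hD j hj)]

end Pool.Agent.H15.NumSem
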