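import Mathlib
import Pool.Agent.H15.NumSemSeries

/-!
The main induction.
-/

open PowerSeries

namespace Pool.Agent.H15.NumSem

/-- geometric series `∑ X^{a m}`. -/
noncomputable def geo (a : ℕ) : ℤ⟦X⟧ := PowerSeries.mk fun m => if a ∣ m then 1 else 0

theorem geo_mul {a : ℕ} (ha : 0 < a) : geo a * (1 - X ^ a) = 1 := by
  ext m
  rw [mul_sub, mul_one, map_sub, coeff_mul_X_pow', coeff_one, geo, coeff_mk, coeff_mk]
  by_cases h1 : a ≤ m
  · rw [if_pos h1]
    have h2 : m ≠ 0 := by omega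
    rw [if_neg h2]
    have h3 : a ∣ m ↔ a ∣ m - a := by
      constructor
      · intro h; exact Nat.dvd_sub h (dvd_refl a)
      · intro h
        have := Nat.dvd_add h (dvd_refl a)
        rwa [Nat.sub_add_cancel h1] at this
    by_cases h4 : a ∣ m
    · rw [if_pos h4, if_pos (h3.mp h4), sub_self]
    · rw [if_neg h4, if_neg (fun h => h4 (h3.mpr h)), sub_self]
  · rw [if_neg h1, sub_zero]
    by_cases h2 : m = 0
    · subst h2; simp
    · rw [if_neg h2, if_neg]
      intro h3
      exact h1 (Nat.le_of_dvd (Nat.pos_of_ne_zero h2) h3)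

theorem suppIn_geo {T : AddSubmonoid ℕ} {a : ℕ} (ha : a ∈ T) : SuppIn T (geo a) := by
  intro m hm
  rw [geo, coeff_mk, if_neg]
  rintro ⟨k, rfl⟩
  apply hm
  have := T.nsmul_mem ha k
  simpa [mul_comm] using this

theorem geo_prod {ι : Type*} (n : ι → ℕ) (hn : ∀ i, 0 < n i) (s : Finset ι) :
    (∏ i ∈ s, geo (n i)) * ∏ i ∈ s, (1 - X ^ (n i)) = 1 := by
  rw [← Finset.prod_mul_distrib]
  exact Finset.prod_eq_one fun i _ => geo_mul (hn i)

theorem suppIn_prod_geo {ι : Type*} {T : AddSubmonoid ℕ} (n : ι → ℕ) (s : Finset ι)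
    (hn : ∀ i ∈ s, n i ∈ T) : SuppIn T (∏ i ∈ s, geo (n i)) := by
  classical
  induction s using Finset.induction_on with
  | empty => simpa using SuppIn.one
  | insert a s ha ih =>
    rw [Finset.prod_insert ha]
    exact (suppIn_geo (hn a (Finset.mem_insert_self a s))).mul
      (ih fun i hi => hn i (Finset.mem_insert_of_mem hi))

theorem nonneg_prod_geo {ι : Type*} (n : ι → ℕ) (s : Finset ι) (m : ℕ) :
    0 ≤ coeff m (∏ i ∈ s, geo (n i)) := by
  classical
  induction s using Finset.induction_on generalizing m with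
  | empty =>
    rw [Finset.prod_empty, coeff_one]
    split_ifs <;> norm_num
  | insert a s ha ih =>
    rw [Finset.prod_insert ha, coeff_mul]
    apply Finset.sum_nonneg
    intro q _
    apply mul_nonneg _ (ih _)
    rw [geo, coeff_mk]
    split_ifs <;> norm_num

theorem one_le_prod_geo {ι : Type*} (n : ι → ℕ) (s : Finset ι) (c : ι → ℕ) :
    1 ≤ coeff (∑ i ∈ s, c i * n i) (∏ i ∈ s, geo (n i)) := by
  classical
  induction s using Finset.induction_on with
  | empty => simp
  | insert a s ha ih =>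
    rw [Finset.prod_insert ha, Finset.sum_insert ha, coeff_mul]
    have h1 : (c a * n a, ∑ i ∈ s, c i * n i) ∈
        Finset.HasAntidiagonal.antidiagonal (c a * n a + ∑ i ∈ s, c i * n i) := by simp
    have h2 : 1 ≤ coeff (c a * n a) (geo (n a)) * coeff (∑ i ∈ s, c i * n i) (∏ i ∈ s, geo (n i)) := by
      rw [geo, coeff_mk, if_pos (Dvd.intro_left _ rfl), one_mul]
      exact ih
    refine h2.trans ?_
    refine Finset.single_le_sum (f := fun q : ℕ × ℕ => coeff q.1 (geo (n a)) *
      coeff q.2 (∏ i ∈ s, geo (n i))) ?_ h1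
    intro q _
    apply mul_nonneg _ (nonneg_prod_geo n s _)
    rw [geo, coeff_mk]
    split_ifs <;> norm_num

/-- supports in an ideal of `T`. -/
theorem suppIn_ideal_mul {T : AddSubmonoid ℕ} {B : Set ℕ} (hB : ∀ b ∈ B, ∀ t ∈ T, b + t ∈ B)
    {f g : ℤ⟦X⟧} (hf : SuppIn B f) (hg : SuppIn T g) : SuppIn B (f * g) := by
  intro m hm
  rw [coeff_mul]
  apply Finset.sum_eq_zero
  intro q hq
  rw [Finset.HasAntidiagonal.mem_antidiagonal] at hq
  by_cases h1 : q.1 ∈ B
  · by_cases h2 : q.2 ∈ (T : Set ℕ)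
    · exact absurd (hq ▸ hB _ h1 _ h2) hm
    · rw [hg _ h2, mul_zero]
  · rw [hf _ h1, zero_mul]

theorem suppIn_prod_sub_one {T : AddSubmonoid ℕ} {B : Set ℕ} (hB : ∀ b ∈ B, ∀ t ∈ T, b + t ∈ B)
    (D : Multiset ℕ) (hDB : ∀ j ∈ D, j ∈ B) (hDT : ∀ j ∈ D, j ∈ T) :
    SuppIn B ((D.map fun j => (1 - X ^ j : ℤ⟦X⟧)).prod - 1) := by
  induction D using Multiset.induction_on with
  | empty => intro m _; simp
  | cons c D ih =>
    have h1 := ih (fun j hj => hDB j (Multiset.mem_cons_of_mem hj))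
      (fun j hj => hDT j (Multiset.mem_cons_of_mem hj))
    rw [Multiset.map_cons, Multiset.prod_cons]
    set R := (D.map fun j => (1 - X ^ j : ℤ⟦X⟧)).prod - 1 with hR
    have h2 : (1 - X ^ c : ℤ⟦X⟧) * (D.map fun j => (1 - X ^ j : ℤ⟦X⟧)).prod - 1 =
        R * (1 - X ^ c) - X ^ c := by rw [hR]; ring
    rw [h2]
    have h3 : SuppIn B (R * (1 - X ^ c)) :=
      suppIn_ideal_mul hB h1 (suppIn_one_sub (hDT c (Multiset.mem_cons_self c D)))
    intro m hm
    rw [map_sub, h3 m hm, coeff_X_pow, if_neg, sub_zero]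
    rintro rfl
    exact hm (hDB _ (Multiset.mem_cons_self _ D))

/-- The data of the induction. -/
structure Good {ι : Type} [Fintype ι] (n : ι → ℕ) (D : Multiset ℕ) : Prop where
  min : ∀ i c, fac n c = n i → c = Finsupp.single i 1
  cof : ((gen n : Set ℕ)ᶜ).Finite
  mem : ∀ j ∈ D, j ∈ gen n
  pos : ∀ j ∈ D, 0 < j
  anti : ∀ j ∈ D, ∀ k ∈ D, j ≠ k → ¬ ∃ t ∈ gen n, k = j + t
  two : ∃ a b, ∀ j ∈ D, j = a ∨ j = b
  id : SerId n D

variable {ι : Type} [Fintype ι] {n : ι → ℕ} {D : Multiset ℕ}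

theorem npos_of_min (h : ∀ i c, fac n c = n i → c = Finsupp.single i 1) (i : ι) : 0 < n i := by
  by_contra hcon
  have h0 : n i = 0 := by omega
  have := h i 0 (by simp [h0])
  have h2 := DFunLike.congr_fun this i
  simp at h2

theorem inj_of_min (h : ∀ i c, fac n c = n i → c = Finsupp.single i 1) {i j : ι} (hij : n i = n j) :
    i = j := by
  have h1 := h i (Finsupp.single j 1) (by simp [hij])
  have h2 := DFunLike.congr_fun h1 i
  by_contra hne
  simp [Finsupp.single_apply, Ne.symm hne] at h2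

theorem atom_of_min (h : ∀ i c, fac n c = n i → c = Finsupp.single i 1) (i : ι) :
    ∀ u ∈ gen n, ∀ v ∈ gen n, u + v = n i → u = 0 ∨ v = 0 := by
  intro u hu v hv huv
  obtain ⟨c, rfl⟩ := mem_gen.mp hu
  obtain ⟨d, rfl⟩ := mem_gen.mp hv
  have h1 := h i (c + d) (by rw [map_add, huv])
  have h2 := DFunLike.congr_fun h1 i
  simp only [Finsupp.add_apply, Finsupp.single_eq_same] at h2
  have h3 : ∀ j, j ≠ i → c j = 0 ∧ d j = 0 := by
    intro j hj
    have h4 := DFunLike.congr_fun h1 j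
    simp [Finsupp.single_apply, Ne.symm hj] at h4
    exact h4
  rcases Nat.eq_zero_or_pos (c i) with hc | hc
  · left
    have : c = 0 := by
      ext j
      by_cases hj : j = i
      · subst hj; simpa using hc
      · simpa using (h3 j hj).1
    rw [this, map_zero]
  · right
    have : d = 0 := by
      ext j
      by_cases hj : j = i
      · subst hj; simp; omega
      · simpa using (h3 j hj).2
    rw [this, map_zero]

/-- Minimal generators are not in `D`. -/
theorem notMem_of_min (h : ∀ i c, fac n c = n i → c = Finsupp.single i 1)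
    (hmem : ∀ j ∈ D, j ∈ gen n) (hpos : ∀ j ∈ D, 0 < j) (hid : SerId n D) (i : ι) : n i ∉ D := by
  classical
  have hn := npos_of_min h
  set M : Multiset ℕ := Finset.univ.val.map n with hM
  have e1 : ∏ i, (1 - X ^ (n i) : ℤ⟦X⟧) = (M.map fun j => (1 - X ^ j : ℤ⟦X⟧)).prod := by
    rw [hM, Multiset.map_map]; rfl
  have hMmem : ∀ j ∈ M, j ∈ gen n := by
    intro j hj
    rw [hM, Multiset.mem_map] at hj
    obtain ⟨i, -, rfl⟩ := hj
    exact mem_gen_self n i
  have hM0 : 0 ∉ M := by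
    intro hj
    rw [hM, Multiset.mem_map] at hj
    obtain ⟨i, -, h0⟩ := hj
    have := hn i
    omega
  have hcount : M.count (n i) = 1 := by
    rw [hM]
    have := Multiset.count_map_eq_count' n Finset.univ.val (fun a b hab => inj_of_min h hab) i
    rw [this]
    exact Multiset.count_eq_one_of_mem Finset.univ.nodup (Finset.mem_univ i)
  have hat := atom_of_min h i
  have hn0 := (hn i).ne'
  obtain ⟨a1, a2, a3⟩ := atom_multiset hn0 hat M hMmem hM0
  obtain ⟨b1, b2, b3⟩ := atom_multiset hn0 hat D hmem (fun h0 => (hpos 0 h0).ne' rfl)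
  unfold SerId at hid
  rw [e1] at hid
  have h2 := congrArg (fun q => coeff (n i) q) hid
  beta_reduce at h2
  rw [coeff_mul_atom suppIn_hser a1 hn0 hat, a2, a3, b3, coeff_hser, coeff_hser, if_pos, if_pos,
    hcount] at h2
  · have h3 : ((D.count (n i) : ℕ) : ℤ) = 0 := by
      have h4 : (1 : ℤ) * -((1 : ℕ) : ℤ) + 1 * 1 = -((D.count (n i) : ℕ) : ℤ) := h2
      rw [Nat.cast_one] at h4
      linarith
    have h4 : D.count (n i) = 0 := by exact_mod_cast h3
    exact Multiset.count_eq_zero.mp h4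
  · exact mem_gen_self n i
  · exact (gen n).zero_mem

/-- Coefficient argument: if `N = n i₀` is generated by the other generators and divides an element
of the antichain `D`, then `N ∈ D`. -/
theorem mem_of_redundant [DecidableEq ι] {i₀ : ι} (hn : ∀ i, 0 < n i)
    {c : ι →₀ ℕ} (hc0 : c i₀ = 0) (hc : fac n c = n i₀)
    (hmem : ∀ j ∈ D, j ∈ gen n) (hpos : ∀ j ∈ D, 0 < j)
    (anti : ∀ j ∈ D, ∀ k ∈ D, j ≠ k → ¬ ∃ t ∈ gen n, k = j + t) (hid : SerId n D)
    {k : ℕ} (hk : k ∈ D) (hdvd : n i₀ ∣ k) : n i₀ ∈ D := by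
  by_contra hN
  set N := n i₀ with hNdef
  have hNpos : 0 < N := hn i₀
  have hNT : N ∈ gen n := mem_gen_self n i₀
  obtain ⟨q, hq⟩ := hdvd
  have hkpos := hpos k hk
  have hq0 : q ≠ 0 := by rintro rfl; simp at hq; omega
  have hq1 : q ≠ 1 := by rintro rfl; apply hN; rw [← mul_one N, ← hq]; exact hk
  obtain ⟨q', rfl⟩ : ∃ q', q = q' + 2 := ⟨q - 2, by omega⟩
  set B : Set ℕ := {m | ∃ j ∈ D, ∃ t ∈ gen n, m = j + t} with hB
  have hNB : N ∉ B := by
    rintro ⟨j, hj, t, ht, hjt⟩
    have hjk : j ≠ k := by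
      rintro rfl
      nlinarith
    apply anti j hj k hk hjk
    refine ⟨t + (q' + 1) * N, (gen n).add_mem ht ?_, ?_⟩
    · simpa using (gen n).nsmul_mem hNT (q' + 1)
    · rw [hq]
      calc N * (q' + 2) = N + (q' + 1) * N := by ring
        _ = (j + t) + (q' + 1) * N := by rw [← hjt]
        _ = j + (t + (q' + 1) * N) := by ring
  have hBT : ∀ b ∈ B, ∀ t ∈ gen n, b + t ∈ B := by
    rintro b ⟨j, hj, s, hs, rfl⟩ t ht
    exact ⟨j, hj, s + t, (gen n).add_mem hs ht, by ring⟩
  have hDB : ∀ j ∈ D, j ∈ B := fun j hj => ⟨j, hj, 0, (gen n).zero_mem, by simp⟩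
  have hR := suppIn_prod_sub_one hBT D hDB hmem
  set P := (D.map fun j => (1 - X ^ j : ℤ⟦X⟧)).prod with hP
  set G := ∏ i ∈ Finset.univ.erase i₀, geo (n i) with hG
  have hGF := geo_prod n hn (Finset.univ.erase i₀)
  have hGT : SuppIn (gen n) G := suppIn_prod_geo n _ fun i _ => mem_gen_self n i
  have e1 : ∏ i, (1 - X ^ (n i) : ℤ⟦X⟧) =
      (1 - X ^ N) * ∏ i ∈ Finset.univ.erase i₀, (1 - X ^ (n i)) :=
    (Finset.mul_prod_erase _ _ (Finset.mem_univ i₀)).symm
  have h1 : hser (gen n) * (1 - X ^ N) = G + (P - 1) * G := by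
    have h2 : hser (gen n) * ((1 - X ^ N) * ∏ i ∈ Finset.univ.erase i₀, (1 - X ^ (n i))) = P := by
      rw [← e1]; exact hid
    calc hser (gen n) * (1 - X ^ N)
        = hser (gen n) * (1 - X ^ N) * (G * ∏ i ∈ Finset.univ.erase i₀, (1 - X ^ (n i))) := by
          rw [hGF, mul_one]
      _ = (hser (gen n) * ((1 - X ^ N) * ∏ i ∈ Finset.univ.erase i₀, (1 - X ^ (n i)))) * G := by ring
      _ = G + (P - 1) * G := by rw [h2]; ring
  have h2 := congrArg (fun q => coeff N q) h1
  beta_reduce at h2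
  rw [coeff_hser_mul _ hNT, if_neg, map_add, suppIn_ideal_mul hBT hR hGT N hNB, add_zero] at h2
  · have h3 : 1 ≤ coeff N G := by
      have h4 := one_le_prod_geo n (Finset.univ.erase i₀) c
      have h5 : ∑ i ∈ Finset.univ.erase i₀, c i * n i = N := by
        rw [← hc, fac_apply, Finsupp.sum_fintype _ _ (by simp),
          ← Finset.add_sum_erase _ _ (Finset.mem_univ i₀), hc0]
        simp
      rw [h5] at h4
      exact h4
    omega
  · rintro ⟨-, h3⟩
    apply h3
    exact ⟨le_rfl, by rw [Nat.sub_self]; exact (gen n).zero_mem⟩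

/-- Division of membership. -/
theorem mem_gen_div [DecidableEq ι] {p : ℕ} (hp0 : p ≠ 0) {i₀ : ι} {n n' : ι → ℕ}
    (h0 : n i₀ = n' i₀) (h1 : ∀ i, i ≠ i₀ → n i = p * n' i) (hcop : Nat.Coprime p (n' i₀))
    {s : ℕ} (hs : p * s ∈ gen n) : s ∈ gen n' := by
  obtain ⟨d, hd⟩ := mem_gen.mp hs
  rw [fac_eq_erase h0 h1 d] at hd
  have h6 : p ∣ d i₀ * n' i₀ := by
    have h8 : p ∣ d i₀ * n' i₀ + p * fac n' (d.erase i₀) := by
      rw [hd]; exact dvd_mul_right _ _
    exact (Nat.dvd_add_left (dvd_mul_right _ _)).mp h8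
  obtain ⟨k, hk⟩ := hcop.dvd_of_dvd_mul_right h6
  refine mem_gen.mpr ⟨Finsupp.single i₀ k + d.erase i₀, ?_⟩
  apply Nat.eq_of_mul_eq_mul_left (Nat.pos_of_ne_zero hp0)
  rw [map_add, fac_single, ← hd, hk]
  ring

theorem mul_mem_gen [DecidableEq ι] {p : ℕ} {i₀ : ι} {n n' : ι → ℕ}
    (h0 : n i₀ = n' i₀) (h1 : ∀ i, i ≠ i₀ → n i = p * n' i)
    {s : ℕ} (hs : s ∈ gen n') : p * s ∈ gen n := by
  obtain ⟨c, rfl⟩ := mem_gen.mp hs
  exact mem_gen.mpr ⟨dil p i₀ c, fac_dil p i₀ n n' h0 h1 c⟩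

/-- The family obtained by removing a redundant generator generates the same monoid. -/
theorem gen_restrict [DecidableEq ι] {i₀ : ι} {c : ι →₀ ℕ} (hc0 : c i₀ = 0) (hc : fac n c = n i₀) :
    gen (fun i : {i // i ≠ i₀} => n i) = gen n := by
  classical
  let emb : ({i // i ≠ i₀} →₀ ℕ) →+ (ι →₀ ℕ) := Finsupp.mapDomain.addMonoidHom Subtype.val
  have femb : ∀ z, fac n (emb z) = fac (fun i : {i // i ≠ i₀} => n i) z := by
    intro z
    induction z using Finsupp.induction_linear with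
    | zero => simp
    | add f g hf hg => rw [map_add, map_add, hf, hg, map_add]
    | single i k => simp [emb]
  have hrest : ∀ z : ι →₀ ℕ, z i₀ = 0 → ∃ w, emb w = z := by
    intro z hz
    refine ⟨z.comapDomain Subtype.val (Subtype.val_injective.injOn), ?_⟩
    simp only [emb, Finsupp.mapDomain.addMonoidHom_apply]
    apply Finsupp.mapDomain_comapDomain
    · exact Subtype.val_injective
    · intro j hj
      simp only [Finset.mem_coe, Finsupp.mem_support_iff] at hj
      rw [Subtype.range_coe_subtype]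
      intro hji
      apply hj
      rw [hji]; exact hz
  ext m
  constructor
  · intro hm
    obtain ⟨z, rfl⟩ := mem_gen.mp hm
    exact mem_gen.mpr ⟨emb z, femb z⟩
  · intro hm
    obtain ⟨z, rfl⟩ := mem_gen.mp hm
    obtain ⟨w, hw⟩ := hrest ((z i₀) • c + z.erase i₀) (by simp [hc0])
    refine mem_gen.mpr ⟨w, ?_⟩
    rw [← femb, hw, map_add, map_nsmul, hc, fac_eq_add_erase n i₀ z]
    simp

theorem fac_restrict [DecidableEq ι] {i₀ : ι} (z : {i // i ≠ i₀} →₀ ℕ) :
    fac n (Finsupp.mapDomain Subtype.val z) = fac (fun i : {i // i ≠ i₀} => n i) z := by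
  induction z using Finsupp.induction_linear with
  | zero => simp
  | add f g hf hg => rw [Finsupp.mapDomain_add, map_add, hf, hg, map_add]
  | single i k => simp

/-- Base case: a single generator. -/
theorem hasPres_of_card_one (hn : ∀ i, 0 < n i) (hcard : Fintype.card ι = 1) : HasPres n 0 := by
  refine ⟨∅, by simp, ?_⟩
  rw [isPres_iff]
  refine ⟨fun x y h => by simp at h, fun x y hxy => ?_⟩
  obtain ⟨i, hi⟩ := Fintype.card_eq_one_iff.mp hcard
  have hx : ∀ z : ι →₀ ℕ, z = Finsupp.single i (z i) := by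
    intro z
    ext j
    rw [hi j]; simp
  rw [hx x, hx y, fac_single, fac_single] at hxy
  have h2 : x i = y i := Nat.eq_of_mul_eq_mul_right (hn i) hxy
  have h3 : x = y := by rw [hx x, hx y, h2]
  rw [h3]
  exact AddCon.refl _ _

theorem main_aux (N : ℕ) : ∀ (ι : Type) [Fintype ι] [DecidableEq ι] (n : ι → ℕ) (D : Multiset ℕ),
    ∑ i, n i ≤ N → Good n D → HasPres n (Fintype.card ι - 1) := by
  induction N using Nat.strong_induction_on with
  | _ N IH =>
  intro ι _ _ n D hsum hG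
  have hn := npos_of_min hG.min
  obtain ⟨Q, hQ⟩ := hG.id.toPolyId hn hG.pos hG.cof
  have hcard := hQ.cancel.1
  rcases Multiset.empty_or_exists_mem D with hD | ⟨j₁, hj₁⟩
  · rw [hD] at hcard
    have h1 : Fintype.card ι = 1 := by simpa using hcard
    rw [h1]
    exact hasPres_of_card_one hn h1
  have hD0 : D ≠ 0 := fun h => by rw [h] at hj₁; simp at hj₁
  have hcard2 : 2 ≤ Fintype.card ι := by
    have := Multiset.card_pos.mpr hD0
    omega
  -- no generator equals one
  have hn1 : ∀ i, n i ≠ 1 := by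
    intro i hi
    have h1 : ∀ j, j = i := by
      intro j
      have h2 := hG.min j (Finsupp.single i (n j)) (by simp [hi])
      by_contra hne
      have h3 := DFunLike.congr_fun h2 j
      simp [Finsupp.single_apply, Ne.symm hne] at h3
    have : Fintype.card ι = 1 := Fintype.card_eq_one_iff.mpr ⟨i, h1⟩
    omega
  have h1D : 1 ∉ D := by
    intro h1
    obtain ⟨c, hc⟩ := mem_gen.mp (hG.mem 1 h1)
    have hc0 : c ≠ 0 := by rintro rfl; simp at hc
    obtain ⟨i, hi⟩ := Finsupp.ne_iff.mp hc0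
    have hi' : c i ≠ 0 := by simpa using hi
    rw [fac_eq_add_erase n i c] at hc
    have h2 : 1 ≤ c i := by omega
    have h3 := hn i
    have h4 := hn1 i
    have h5 : n i ≤ c i * n i := Nat.le_mul_of_pos_left _ h2
    omega
  have hnD : ∀ j ∈ D, ∀ i, n i ≠ j := by
    intro j hj i hij
    exact notMem_of_min hG.min hG.mem hG.pos hG.id i (hij ▸ hj)
  obtain ⟨p, hp, hpD⟩ := hQ.exists_prime hD0 hG.two h1D hn1 hnD
  obtain ⟨i₀, hi₀, hi⟩ := hQ.exists_index hp hpD
  have hp0 : p ≠ 0 := hp.ne_zero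
  set n' : ι → ℕ := fun i => if i = i₀ then n i₀ else n i / p with hn'
  have h0 : n i₀ = n' i₀ := by simp [hn']
  have h1 : ∀ i, i ≠ i₀ → n i = p * n' i := by
    intro i hii
    simp only [hn', if_neg hii]
    exact (Nat.mul_div_cancel' (hi i hii)).symm
  have hcop : Nat.Coprime p (n' i₀) := by
    rw [← h0]; exact (Nat.Prime.coprime_iff_not_dvd hp).mpr hi₀
  have hn'pos : ∀ i, 0 < n' i := by
    intro i
    by_cases hii : i = i₀
    · subst hii; rw [← h0]; exact hn i
    · have h2 := hn i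
      rw [h1 i hii] at h2
      exact Nat.pos_of_mul_pos_left h2
  have hle : ∀ i, n' i ≤ n i := by
    intro i
    by_cases hii : i = i₀
    · subst hii; rw [← h0]
    · rw [h1 i hii]; exact Nat.le_mul_of_pos_left _ hp.pos
  have hsum' : ∑ i, n' i < ∑ i, n i := by
    obtain ⟨i, hii⟩ : ∃ i, i ≠ i₀ := by
      have := Fintype.one_lt_card_iff_nontrivial.mp (by omega : 1 < Fintype.card ι)
      exact exists_ne i₀
    apply Finset.sum_lt_sum (fun i _ => hle i)
    refine ⟨i, Finset.mem_univ i, ?_⟩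
    rw [h1 i hii]
    have h2 := hn'pos i
    have h3 := hp.two_le
    nlinarith
  set D' := D.map (· / p) with hD'
  have hid' : SerId n' D' := hG.id.div hp0 h0 h1 hcop hpD
  have hmemD' : ∀ j' ∈ D', ∃ j ∈ D, j = p * j' := by
    intro j' hj'
    rw [hD', Multiset.mem_map] at hj'
    obtain ⟨j, hj, rfl⟩ := hj'
    exact ⟨j, hj, (Nat.mul_div_cancel' (hpD j hj)).symm⟩
  have hpos' : ∀ j ∈ D', 0 < j := by
    intro j' hj'
    obtain ⟨j, hj, hjj⟩ := hmemD' j' hj'
    have := hG.pos j hj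
    rw [hjj] at this
    exact Nat.pos_of_mul_pos_left this
  have hmem' : ∀ j ∈ D', j ∈ gen n' := by
    intro j' hj'
    obtain ⟨j, hj, hjj⟩ := hmemD' j' hj'
    exact mem_gen_div hp0 h0 h1 hcop (hjj ▸ hG.mem j hj)
  have hanti' : ∀ j ∈ D', ∀ k ∈ D', j ≠ k → ¬ ∃ t ∈ gen n', k = j + t := by
    intro j' hj' k' hk' hne ⟨t, ht, hkt⟩
    obtain ⟨j, hj, hjj⟩ := hmemD' j' hj'
    obtain ⟨k, hk, hkk⟩ := hmemD' k' hk'
    refine hG.anti j hj k hk ?_ ⟨p * t, mul_mem_gen h0 h1 ht, ?_⟩
    · rintro rfl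
      exact hne (Nat.eq_of_mul_eq_mul_left hp.pos (hjj ▸ hkk))
    · rw [hjj, hkk, hkt]; ring
  have htwo' : ∃ a b, ∀ j ∈ D', j = a ∨ j = b := by
    obtain ⟨a, b, hab⟩ := hG.two
    refine ⟨a / p, b / p, fun j' hj' => ?_⟩
    rw [hD', Multiset.mem_map] at hj'
    obtain ⟨j, hj, rfl⟩ := hj'
    rcases hab j hj with rfl | rfl
    · left; rfl
    · right; rfl
  have hcof' : ((gen n' : Set ℕ)ᶜ).Finite := by
    have hinj : Set.InjOn (fun s => p * s) ((gen n' : Set ℕ)ᶜ) := by
      intro a _ b _ hab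
      exact Nat.eq_of_mul_eq_mul_left hp.pos hab
    apply Set.Finite.of_finite_image _ hinj
    apply hG.cof.subset
    rintro _ ⟨s, hs, rfl⟩ hcon
    exact hs (mem_gen_div hp0 h0 h1 hcop hcon)
  -- minimality away from i₀
  have hmin_ne : ∀ i, i ≠ i₀ → ∀ c, fac n' c = n' i → c = Finsupp.single i 1 := by
    intro i hii c hc
    have h2 : fac n (dil p i₀ c) = n i := by
      rw [fac_dil p i₀ n n' h0 h1, hc, h1 i hii]
    have h3 := hG.min i _ h2
    ext j
    by_cases hj : j = i₀
    · subst hj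
      have h4 := DFunLike.congr_fun h3 j
      rw [dil_apply_self] at h4
      simp only [Finsupp.single_apply, if_neg hii] at h4 ⊢
      rcases Nat.mul_eq_zero.mp h4 with h5 | h5
      · exact absurd h5 hp0
      · exact h5
    · have h4 := DFunLike.congr_fun h3 j
      rwa [dil_apply_ne p hj] at h4
  by_cases hred : ∃ c : ι →₀ ℕ, c i₀ = 0 ∧ fac n' c = n' i₀
  · -- redundant generator
    obtain ⟨c, hc0, hc⟩ := hred
    -- some element of D' is divisible by n' i₀
    obtain ⟨Q', hQ'⟩ := hid'.toPolyId hn'pos hpos' hcof'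
    have hn'1 : 2 ≤ n' i₀ := by
      have h2 := hn'pos i₀
      have h3 := hn1 i₀
      rw [h0] at h3
      omega
    obtain ⟨k, hk, hkd⟩ := hQ'.exists_dvd hn'1 (dvd_refl (n' i₀))
    have hmemD : n' i₀ ∈ D' := mem_of_redundant hn'pos hc0 hc hmem' hpos' hanti' hid' hk hkd
    -- the reduced family
    set n'' : {i // i ≠ i₀} → ℕ := fun i => n' i with hn''
    have hgen : gen n'' = gen n' := gen_restrict hc0 hc
    have hsub : ∀ j ∈ D'.erase (n' i₀), j ∈ D' := fun j hj => Multiset.mem_of_mem_erase hj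
    have hid'' : SerId n'' (D'.erase (n' i₀)) := by
      unfold SerId at hid' ⊢
      have hX : (1 - X ^ (n' i₀) : ℤ⟦X⟧) ≠ 0 := by
        intro hX
        have h2 := congrArg (fun q => coeff 0 q) hX
        simp [coeff_X_pow, (hn'pos i₀).ne, (hn'pos i₀).ne'] at h2
      apply mul_left_cancel₀ hX
      have e1 : ∏ i, (1 - X ^ (n' i) : ℤ⟦X⟧) =
          (1 - X ^ (n' i₀)) * ∏ i : {i // i ≠ i₀}, (1 - X ^ (n'' i)) :=
        Fintype.prod_eq_mul_prod_subtype_ne _ i₀
      have e2 : (D'.map fun j => (1 - X ^ j : ℤ⟦X⟧)).prod =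
          (1 - X ^ (n' i₀)) * ((D'.erase (n' i₀)).map fun j => (1 - X ^ j : ℤ⟦X⟧)).prod := by
        conv_lhs => rw [← Multiset.cons_erase hmemD]
        rw [Multiset.map_cons, Multiset.prod_cons]
      rw [hgen, ← e2, ← hid', e1]
      ring
    have hG'' : Good n'' (D'.erase (n' i₀)) := by
      refine ⟨?_, ?_, ?_, ?_, ?_, ?_, hid''⟩
      · intro i d hd
        have h2 : fac n' (Finsupp.mapDomain Subtype.val d) = n' i := by
          rw [fac_restrict]; exact hd
        have h3 := hmin_ne i i.2 _ h2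
        have h4 : Finsupp.mapDomain Subtype.val d =
            Finsupp.mapDomain Subtype.val (Finsupp.single i 1 : {i // i ≠ i₀} →₀ ℕ) := by
          rw [h3, Finsupp.mapDomain_single]
        exact Finsupp.mapDomain_injective Subtype.val_injective h4
      · rw [hgen]; exact hcof'
      · intro j hj; rw [hgen]; exact hmem' j (hsub j hj)
      · intro j hj; exact hpos' j (hsub j hj)
      · intro j hj k hk hne; rw [hgen]; exact hanti' j (hsub j hj) k (hsub k hk) hne
      · obtain ⟨a, b, hab⟩ := htwo'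
        exact ⟨a, b, fun j hj => hab j (hsub j hj)⟩
    have hsum'' : ∑ i, n'' i ≤ ∑ i, n' i := by
      rw [Fintype.sum_eq_add_sum_subtype_ne n' i₀]
      exact Nat.le_add_left _ _
    have hrec := IH (∑ i, n'' i) (by omega) {i // i ≠ i₀} n'' (D'.erase (n' i₀)) le_rfl hG''
    have hcard' : Fintype.card {i // i ≠ i₀} = Fintype.card ι - 1 := by
      rw [Fintype.card_subtype_compl, Fintype.card_subtype_eq]
    rw [hcard'] at hrec
    have h5 := HasPres.adjoin hc0 hc hrec
    have h6 : Fintype.card ι - 1 - 1 + 1 = Fintype.card ι - 1 := by omega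
    rw [h6] at h5
    exact HasPres.dil hp.pos h0 h1 hcop h5
  · -- still minimal
    have hG' : Good n' D' := by
      refine ⟨?_, hcof', hmem', hpos', hanti', htwo', hid'⟩
      intro i c hc
      by_cases hii : i = i₀
      · subst hii
        have hci : c i ≠ 0 := fun h => hred ⟨c, h, hc⟩
        rw [fac_eq_add_erase n' i c] at hc
        have h2 := hn'pos i
        have h3 : c i = 1 := by
          by_contra hne
          have : 2 ≤ c i := by omega
          nlinarith
        rw [h3, one_mul] at hc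
        have h4 : fac n' (c.erase i) = 0 := by omega
        have h5 : c.erase i = 0 := by
          ext j
          by_contra hne
          have h6 : (c.erase i) j ≠ 0 := by simpa using hne
          rw [fac_eq_add_erase n' j (c.erase i)] at h4
          have h7 := hn'pos j
          have h8 : 0 < (c.erase i) j * n' j := Nat.mul_pos (Nat.pos_of_ne_zero h6) h7
          omega
        rw [← Finsupp.single_add_erase i c, h5, h3, add_zero]
      · exact hmin_ne i hii c hc
    have hrec := IH (∑ i, n' i) (by omega) ι n' D' le_rfl hG'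
    exact HasPres.dil hp.pos h0 h1 hcop hrec

end Pool.Agent.H15.NumSem
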