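import Mathlib
import Pool.Agent.H15.NumSemMain

/-!
Exponent sequences: power series units `1 - X^(j+1)` and their integer powers.
-/

open PowerSeries

namespace Pool.Agent.H15.NumSem

/-- The unit `1 - X^(j+1)` of `ℤ⟦X⟧`. -/
noncomputable def u (j : ℕ) : (ℤ⟦X⟧)ˣ where
  val := 1 - X ^ (j + 1)
  inv := geo (j + 1)
  val_inv := by rw [mul_comm]; exact geo_mul (Nat.succ_pos j)
  inv_val := geo_mul (Nat.succ_pos j)

/-- `v = 1 - k X^j + O(X^(j+1))`. -/
def Lead (j : ℕ) (k : ℤ) (v : ℤ⟦X⟧) : Prop :=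
  coeff 0 v = 1 ∧ (∀ m, 0 < m → m < j → coeff m v = 0) ∧ coeff j v = -k

theorem coeff_mul_lead {j : ℕ} {k : ℤ} {v : ℤ⟦X⟧} (hj : 0 < j) (hv : Lead j k v) (w : ℤ⟦X⟧)
    {m : ℕ} (hm : m < j) : coeff m (v * w) = coeff m w := by
  rw [coeff_mul, Finset.sum_eq_single (0, m)]
  · rw [hv.1, one_mul]
  · intro q hq hne
    rw [Finset.HasAntidiagonal.mem_antidiagonal] at hq
    have h1 : 0 < q.1 := by
      by_contra hcon
      apply hne
      have h0 : q.1 = 0 := by omega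
      ext
      · exact h0
      · simp; omega
    rw [hv.2.1 q.1 h1 (by omega), zero_mul]
  · intro h; simp at h

theorem coeff_mul_lead_self {j : ℕ} {k : ℤ} {v : ℤ⟦X⟧} (hj : 0 < j) (hv : Lead j k v) (w : ℤ⟦X⟧) :
    coeff j (v * w) = coeff j w - k * coeff 0 w := by
  rw [coeff_mul]
  have hsub : ({(0, j), (j, 0)} : Finset (ℕ × ℕ)) ⊆ Finset.HasAntidiagonal.antidiagonal j := by
    intro q hq
    simp only [Finset.mem_insert, Finset.mem_singleton] at hq
    rcases hq with rfl | rfl <;> simp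
  rw [← Finset.sum_subset hsub, Finset.sum_pair]
  · rw [hv.1, hv.2.2]; ring
  · simp [hj.ne]
  · intro q hq hnq
    rw [Finset.HasAntidiagonal.mem_antidiagonal] at hq
    have h1 : 0 < q.1 := by
      by_contra hcon
      apply hnq
      have h0 : q.1 = 0 := by omega
      have : q = (0, j) := by ext <;> simp <;> omega
      simp [this]
    have h2 : q.1 < j := by
      by_contra hcon
      apply hnq
      have : q = (j, 0) := by ext <;> simp <;> omega
      simp [this]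
    rw [hv.2.1 q.1 h1 h2, zero_mul]

theorem Lead.mul {j : ℕ} {k l : ℤ} {v w : ℤ⟦X⟧} (hj : 0 < j) (hv : Lead j k v) (hw : Lead j l w) :
    Lead j (k + l) (v * w) := by
  refine ⟨?_, ?_, ?_⟩
  · rw [coeff_mul_lead hj hv w hj, hw.1]
  · intro m h0 hm
    rw [coeff_mul_lead hj hv w hm, hw.2.1 m h0 hm]
  · rw [coeff_mul_lead_self hj hv, hw.1, hw.2.2]; ring

theorem Lead.one {j : ℕ} (hj : 0 < j) : Lead j 0 (1 : ℤ⟦X⟧) := by
  refine ⟨by simp, fun m h0 _ => ?_, ?_⟩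
  · rw [coeff_one, if_neg h0.ne']
  · rw [coeff_one, if_neg hj.ne', neg_zero]

theorem lead_u (j : ℕ) : Lead (j + 1) 1 (u j : ℤ⟦X⟧) := by
  refine ⟨?_, fun m h0 hm => ?_, ?_⟩
  · simp [u, coeff_X_pow]
  · have : m ≠ j + 1 := by omega
    simp [u, coeff_X_pow, coeff_one, h0.ne', this]
  · simp [u, coeff_X_pow, coeff_one]

theorem lead_u_inv (j : ℕ) : Lead (j + 1) (-1) ((u j)⁻¹ : (ℤ⟦X⟧)ˣ) := by
  change Lead (j + 1) (-1) (geo (j + 1))
  refine ⟨?_, fun m h0 hm => ?_, ?_⟩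
  · simp [geo]
  · rw [geo, coeff_mk, if_neg]
    intro h
    exact absurd (Nat.le_of_dvd h0 h) (by omega)
  · simp [geo]

theorem lead_u_zpow (j : ℕ) (k : ℤ) : Lead (j + 1) k ((u j ^ k : (ℤ⟦X⟧)ˣ) : ℤ⟦X⟧) := by
  induction k using Int.induction_on with
  | zero => simpa using Lead.one (Nat.succ_pos j)
  | succ i ih =>
    rw [zpow_add_one, Units.val_mul]
    exact ih.mul (Nat.succ_pos j) (lead_u j)
  | pred i ih =>
    rw [zpow_sub_one, Units.val_mul]
    exact ih.mul (Nat.succ_pos j) (lead_u_inv j)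

theorem suppIn_u_zpow {T : AddSubmonoid ℕ} {j : ℕ} (hj : j + 1 ∈ T) (k : ℤ) :
    SuppIn T ((u j ^ k : (ℤ⟦X⟧)ˣ) : ℤ⟦X⟧) := by
  have h1 : SuppIn T (u j : ℤ⟦X⟧) := suppIn_one_sub hj
  have h2 : SuppIn T ((u j)⁻¹ : (ℤ⟦X⟧)ˣ) := suppIn_geo hj
  induction k using Int.induction_on with
  | zero => simpa using SuppIn.one
  | succ i ih =>
    rw [zpow_add_one, Units.val_mul]
    exact ih.mul h1
  | pred i ih =>
    rw [zpow_sub_one, Units.val_mul]
    exact ih.mul h2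

end Pool.Agent.H15.NumSem
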